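import Mathlib
import Pool.Agent.H83.LS.Targets3
import Pool.Agent.H83.LS.Basic

/-!
# Module PLE: multipliers as convolutions, bound in `L²`
-/

set_option autoImplicit false

namespace Pool.Agent.H19.LS

open MeasureTheory Set Pool.Agent.H83.LS
open scoped ENNReal NNReal FourierTransform RealInnerProductSpace ContDiff SchwartzMap

section General

variable {E : Type} [NormedAddCommGroup E] [InnerProductSpace ℝ E] [FiniteDimensional ℝ E]
  [MeasurableSpace E] [BorelSpace E]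

theorem fourier_cont (G : E → ℂ) (h1 : Integrable G) : Continuous (𝓕 G) := by
  exact VectorFourier.fourierIntegral_continuous Real.continuous_fourierChar
    (by exact continuous_inner) h1

/-- the Fourier transform of a function in `L¹ ∩ L²` -/
theorem fourier_aeE (G : E → ℂ) (h1 : Integrable G) (h2 : MemLp G 2) :
    ((𝓕 (h2.toLp G) : Lp ℂ 2 (volume : Measure E)) : E → ℂ) =ᵐ[volume] 𝓕 G := by
  have hcont : Continuous (𝓕 G) := fourier_cont G h1
  apply ae_eq_of_integral_contDiff_smul_eq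
  · have := (Lp.memLp (𝓕 (h2.toLp G) : Lp ℂ 2 (volume : Measure E)))
    exact this.locallyIntegrable (by norm_num)
  · exact hcont.locallyIntegrable
  · intro φ hφ1 hφ2
    have hc : HasCompactSupport (fun x => (φ x : ℂ)) := hφ2.comp_left (g := Complex.ofReal) rfl
    have hd : ContDiff ℝ ∞ (fun x => (φ x : ℂ)) := Complex.ofRealCLM.contDiff.comp hφ1
    set Φ : 𝓢(E, ℂ) := hc.toSchwartzMap hd with hΦ
    have e1 := congrArg (fun T : 𝓢'(E, ℂ) => T Φ) (Lp.fourier_toTemperedDistribution_eq (h2.toLp G))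
    simp only [TemperedDistribution.fourier_apply, Lp.toTemperedDistribution_apply] at e1
    have e2 : ∫ x, (𝓕 Φ) x • (h2.toLp G) x = ∫ x, (𝓕 Φ) x • G x := by
      refine integral_congr_ae ?_
      filter_upwards [h2.coeFn_toLp] with x hx
      rw [hx]
    have e3 : ∫ x, (𝓕 Φ) x • G x = ∫ x, Φ x • (𝓕 G) x := by
      have := VectorFourier.integral_fourierIntegral_smul_eq_flip (μ := (volume : Measure E))
        (ν := (volume : Measure E)) (L := innerₗ E) (f := Φ) (g := G)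
        Real.continuous_fourierChar continuous_inner Φ.integrable h1
      rw [flip_innerₗ] at this
      exact this
    have e4 : ∀ F : E → ℂ, ∫ x, φ x • F x = ∫ x, Φ x • F x := by
      intro F
      rfl
    rw [e4, e4, ← e3, ← e2, e1]

/-- Plancherel for functions in `L¹ ∩ L²` -/
theorem plancherelE (g : E → ℂ) (h1 : Integrable g) (h2 : MemLp g 2) :
    ∫⁻ ζ, ‖𝓕 g ζ‖ₑ ^ 2 = ∫⁻ y, ‖g y‖ₑ ^ 2 := by
  have hL : ∀ F : Lp ℂ 2 (volume : Measure E), ∫⁻ v : E, ‖F v‖ₑ ^ 2 = ‖F‖ₑ ^ 2 := by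
    intro F
    rw [Lp.enorm_def, eLpNorm_eq_lintegral_rpow_enorm_toReal (by norm_num) (by norm_num)]
    rw [← ENNReal.rpow_natCast, ← ENNReal.rpow_mul]
    simp
  have e1 : ∫⁻ v : E, ‖𝓕 g v‖ₑ ^ 2
      = ∫⁻ v : E, ‖(𝓕 (h2.toLp g) : Lp ℂ 2 (volume : Measure E)) v‖ₑ ^ 2 := by
    refine lintegral_congr_ae ?_
    filter_upwards [fourier_aeE g h1 h2] with v hv
    rw [hv]
  have e2 : ∫⁻ v : E, ‖g v‖ₑ ^ 2 = ∫⁻ v : E, ‖(h2.toLp g) v‖ₑ ^ 2 := by
    refine lintegral_congr_ae ?_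
    filter_upwards [h2.coeFn_toLp] with v hv
    rw [hv]
  rw [e1, e2, hL, hL]
  have e3 := Lp.norm_fourier_eq (h2.toLp g)
  rw [← ofReal_norm, ← ofReal_norm, e3]

/-- finite `L²` integral -/
theorem memLp_two_of (g : E → ℂ) (hm : AEStronglyMeasurable g) (h : ∫⁻ y, ‖g y‖ₑ ^ 2 ≠ ⊤) :
    MemLp g 2 := by
  refine ⟨hm, ?_⟩
  rw [eLpNorm_lt_top_iff_lintegral_rpow_enorm_lt_top (by norm_num) (by norm_num)]
  simpa using h.lt_top

end General

theorem fourier_e {d : ℕ} (f : EE d → ℂ) (ξ : EE d) :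
    𝓕 f ξ = ∫ y : EE d, e (-inner ℝ y ξ) * f y := by
  rw [Real.fourier_eq']
  refine integral_congr_ae (ae_of_all _ fun v => ?_)
  simp only
  rw [smul_eq_mul]
  unfold e
  congr 3
  push_cast
  ring

theorem MM_fourier {d : ℕ} (m f : EE d → ℂ) (x : EE d) :
    MM m f x = 𝓕 (fun ξ => m ξ * 𝓕 f ξ) (-x) := by
  rw [fourier_e]
  unfold MM
  refine integral_congr_ae (ae_of_all _ fun v => ?_)
  simp only
  rw [inner_neg_right, neg_neg, real_inner_comm]

/-- module PLE -/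
theorem PLE_proof : T_PLE := by
  intro d m f hm hm1 hmi hfi ⟨A, hA⟩ hf
  have hA0 : 0 ≤ A := (norm_nonneg _).trans (hA 0)
  have hfb : ∀ ξ, ‖𝓕 f ξ‖ ≤ ∫ y, ‖f y‖ := by
    intro ξ
    rw [fourier_e]
    refine (norm_integral_le_integral_norm _).trans (le_of_eq ?_)
    congr 1
    ext y
    rw [norm_mul, norm_e, one_mul]
  have hfc : Continuous (𝓕 f) := fourier_cont f hfi
  have hh1 : Integrable fun ξ => m ξ * 𝓕 f ξ :=
    hmi.mul_bdd (c := ∫ y, ‖f y‖) hfc.aestronglyMeasurable (ae_of_all _ hfb)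
  refine ⟨fun x => ?_, ?_⟩
  · have h1 : ∀ y : EE d, MK m (x - y) * f y
        = ∫ z : EE d, e (inner ℝ (x - y) z) * (f y * m z) := by
      intro y'
      unfold MK
      rw [← integral_mul_const]
      refine integral_congr_ae (ae_of_all _ fun z => ?_)
      simp only
      ring
    simp_rw [h1]
    have hI : Integrable (Function.uncurry fun y z : EE d => e (inner ℝ (x - y) z) * (f y * m z))
        (volume.prod volume) := by
      apply (hfi.mul_prod hmi).bdd_mul (c := 1)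
      · exact (continuous_e.comp (by fun_prop)).aestronglyMeasurable
      · exact Filter.Eventually.of_forall (fun ζ => (norm_e _).le)
    rw [integral_integral_swap hI]
    unfold MM
    refine integral_congr_ae (ae_of_all _ fun z => ?_)
    simp only
    rw [fourier_e, ← integral_const_mul, ← integral_const_mul]
    refine integral_congr_ae (ae_of_all _ fun u => ?_)
    simp only
    have h5 : e (inner ℝ (x - u) z) = e (inner ℝ x z) * e (-inner ℝ u z) := by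
      rw [← e_add, inner_sub_left]
      rfl
    rw [h5]
    ring
  · have hf2 : ∫⁻ y, ‖f y‖ₑ ^ 2 ≠ ⊤ := by
      have h1 : ∫⁻ y, ‖f y‖ₑ ^ 2 ≤ ∫⁻ y, ENNReal.ofReal A * ‖f y‖ₑ := by
        refine lintegral_mono fun y => ?_
        rw [pow_two]
        have : ‖f y‖ₑ ≤ ENNReal.ofReal A := by
          rw [← ofReal_norm]
          exact ENNReal.ofReal_le_ofReal (hA y)
        gcongr
      rw [lintegral_const_mul' _ _ ENNReal.ofReal_ne_top] at h1
      exact (h1.trans_lt (ENNReal.mul_lt_top ENNReal.ofReal_lt_top hfi.2)).ne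
    have hf2' : MemLp f 2 := memLp_two_of f hf.aestronglyMeasurable hf2
    have h2 : ∫⁻ ξ, ‖m ξ * 𝓕 f ξ‖ₑ ^ 2 ≤ ∫⁻ y, ‖f y‖ₑ ^ 2 := by
      rw [← plancherelE f hfi hf2']
      refine lintegral_mono fun ξ => ?_
      simp only
      rw [enorm_mul, mul_pow]
      have h3 : ‖m ξ‖ₑ ≤ 1 := by
        rw [← ofReal_norm, ← ENNReal.ofReal_one]
        exact ENNReal.ofReal_le_ofReal (hm1 ξ)
      calc ‖m ξ‖ₑ ^ 2 * ‖𝓕 f ξ‖ₑ ^ 2 ≤ 1 ^ 2 * ‖𝓕 f ξ‖ₑ ^ 2 := by gcongr
        _ = _ := by rw [one_pow, one_mul]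
    have h4 : MemLp (fun ξ => m ξ * 𝓕 f ξ) 2 :=
      memLp_two_of _ (hm.aestronglyMeasurable.mul hfc.aestronglyMeasurable)
        (h2.trans_lt hf2.lt_top).ne
    calc ∫⁻ x, ‖MM m f x‖ₑ ^ 2 = ∫⁻ x, ‖𝓕 (fun ξ => m ξ * 𝓕 f ξ) (-x)‖ₑ ^ 2 := by
          refine lintegral_congr fun x => ?_
          rw [MM_fourier]
      _ = ∫⁻ x, ‖𝓕 (fun ξ => m ξ * 𝓕 f ξ) x‖ₑ ^ 2 :=
          lintegral_neg_eq_self (μ := (volume : Measure (EE d)))
            fun x => ‖𝓕 (fun ξ => m ξ * 𝓕 f ξ) x‖ₑ ^ 2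
      _ = ∫⁻ ξ, ‖m ξ * 𝓕 f ξ‖ₑ ^ 2 := plancherelE _ hh1 h4
      _ ≤ _ := h2

end Pool.Agent.H19.LS
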