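import Mathlib
import Pool.Agent.H83.LS.Targets1

/-!
# Module YG: Young's inequality on groups
-/

set_option autoImplicit false

namespace Pool.Agent.H19.LS

open MeasureTheory Set Pool.Agent.H83.LS
open scoped ENNReal NNReal

/-- module YG -/
theorem YG_proof : T_YG := by
  intro G _ _ _ _ μ _ _ _ k H p hk hH hp
  have hsub : Measurable fun q : G × G => q.1 - q.2 := by
    have : (fun q : G × G => q.1 - q.2) = fun q : G × G => q.1 + -q.2 := by
      ext q
      rw [sub_eq_add_neg]
    rw [this]
    fun_prop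
  have hswap : ∀ F : G → ℝ≥0∞, Measurable F → ∫⁻ y, ∫⁻ y', k (y - y') * F y' ∂μ ∂μ
      = (∫⁻ y, k y ∂μ) * ∫⁻ y, F y ∂μ := by
    intro F hF
    have hm : Measurable (Function.uncurry fun y y' : G => k (y - y') * F y') :=
      (hk.comp hsub).mul (hF.comp measurable_snd)
    rw [lintegral_lintegral_swap hm.aemeasurable]
    have h1 : ∀ y' : G, ∫⁻ y, k (y - y') * F y' ∂μ = (∫⁻ y, k y ∂μ) * F y' := by
      intro y'
      have hm1 : Measurable fun y : G => k (y - y') :=
        hk.comp (hsub.comp measurable_prodMk_right)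
      rw [lintegral_mul_const _ hm1, lintegral_sub_right_eq_self k y']
    simp_rw [h1]
    rw [lintegral_const_mul _ hF]
  rcases hp.eq_or_lt with h | h
  · subst h
    simp only [ENNReal.rpow_one]
    exact (hswap H hH).le
  · have hpq := Real.HolderConjugate.conjExponent h
    set q := p.conjExponent with hq
    have hp0 : 0 < p := by linarith
    have hq0 : 0 < q := hpq.symm.pos
    have hpp : p / q = p - 1 := by
      rw [hq, Real.conjExponent]
      field_simp
    have hk1 : ∀ y : G, ∫⁻ y', k (y - y') ∂μ = ∫⁻ y, k y ∂μ := fun y =>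
      lintegral_sub_left_eq_self k y
    have hH1 : ∀ y : G, (∫⁻ y', k (y - y') * H y' ∂μ) ^ p
        ≤ (∫⁻ y, k y ∂μ) ^ (p - 1) * ∫⁻ y', k (y - y') * H y' ^ p ∂μ := by
      intro y
      have hm1 : Measurable fun y' : G => k (y - y') :=
        hk.comp (hsub.comp measurable_prodMk_left)
      have h2 := ENNReal.lintegral_mul_le_Lp_mul_Lq μ hpq.symm
        (f := fun y' => k (y - y') ^ (1 / q)) (g := fun y' => k (y - y') ^ (1 / p) * H y')
        (hm1.pow_const _).aemeasurable (((hm1.pow_const _).mul hH).aemeasurable)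
      have h3 : ∀ y' : G, ((fun y' => k (y - y') ^ (1 / q)) *
          (fun y' => k (y - y') ^ (1 / p) * H y')) y' = k (y - y') * H y' := by
        intro y'
        simp only [Pi.mul_apply]
        rw [← mul_assoc, ← ENNReal.rpow_add_of_nonneg _ _ (by positivity) (by positivity)]
        have : 1 / q + 1 / p = 1 := by
          have := hpq.inv_add_inv_eq_one
          rw [one_div, one_div, add_comm]
          exact this
        rw [this, ENNReal.rpow_one]
      have h4 : ∀ y' : G, (k (y - y') ^ (1 / q)) ^ q = k (y - y') := by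
        intro y'
        rw [← ENNReal.rpow_mul, one_div, inv_mul_cancel₀ hq0.ne', ENNReal.rpow_one]
      have h5 : ∀ y' : G, (k (y - y') ^ (1 / p) * H y') ^ p = k (y - y') * H y' ^ p := by
        intro y'
        rw [ENNReal.mul_rpow_of_nonneg _ _ hp0.le, ← ENNReal.rpow_mul, one_div,
          inv_mul_cancel₀ hp0.ne', ENNReal.rpow_one]
      simp_rw [h3, h4, h5, hk1] at h2
      calc (∫⁻ y', k (y - y') * H y' ∂μ) ^ p
          ≤ ((∫⁻ y, k y ∂μ) ^ (1 / q) * (∫⁻ y', k (y - y') * H y' ^ p ∂μ) ^ (1 / p)) ^ p :=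
            ENNReal.rpow_le_rpow h2 hp0.le
        _ = _ := by
          rw [ENNReal.mul_rpow_of_nonneg _ _ hp0.le, ← ENNReal.rpow_mul, ← ENNReal.rpow_mul,
            one_div, one_div, inv_mul_cancel₀ hp0.ne', ENNReal.rpow_one, inv_mul_eq_div, hpp]
    calc ∫⁻ y, (∫⁻ y', k (y - y') * H y' ∂μ) ^ p ∂μ
        ≤ ∫⁻ y, (∫⁻ y, k y ∂μ) ^ (p - 1) * ∫⁻ y', k (y - y') * H y' ^ p ∂μ ∂μ :=
          lintegral_mono hH1
      _ = (∫⁻ y, k y ∂μ) ^ (p - 1) * ((∫⁻ y, k y ∂μ) * ∫⁻ y, H y ^ p ∂μ) := by
          have hm : Measurable fun y : G => ∫⁻ y', k (y - y') * H y' ^ p ∂μ := by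
            have hm2 : Measurable (Function.uncurry fun y y' : G => k (y - y') * H y' ^ p) :=
              (hk.comp hsub).mul ((hH.pow_const p).comp measurable_snd)
            exact hm2.lintegral_prod_right'
          rw [lintegral_const_mul _ hm, hswap _ (hH.pow_const p)]
      _ = _ := by
          rw [← mul_assoc]
          congr 1
          conv_lhs =>
            enter [2]
            rw [← ENNReal.rpow_one (∫⁻ y, k y ∂μ)]
          rw [← ENNReal.rpow_add_of_nonneg _ _ (by linarith) zero_le_one]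
          congr 1
          ring

end Pool.Agent.H19.LS
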