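import Mathlib
import Pool.Agent.H83.LS.Targets3

/-!
# Module MARC: interpolation of sequences
-/

set_option autoImplicit false

namespace Pool.Agent.H19.LS

open MeasureTheory Set Pool.Agent.H83.LS
open scoped ENNReal NNReal

/-- the weights -/
noncomputable def ww (θ θ' : ℝ) (j : ℤ) : ℝ := (2 : ℝ) ^ θ' * (2 : ℝ) ^ (-(θ * |(j : ℝ)|))

theorem ww_pos (θ θ' : ℝ) (j : ℤ) : 0 < ww θ θ' j := by
  unfold ww
  positivity

theorem ww_sum (θ θ' : ℝ) (hθ : 0 < θ) : Summable (ww θ θ') := by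
  unfold ww
  apply Summable.mul_left
  have h1 : Summable fun n : ℕ => (2 : ℝ) ^ (-(θ * |((n : ℤ) : ℝ)|)) := by
    have h2 : ∀ n : ℕ, (2 : ℝ) ^ (-(θ * |((n : ℤ) : ℝ)|)) = ((2 : ℝ) ^ (-θ)) ^ n := by
      intro n
      rw [← Real.rpow_natCast, ← Real.rpow_mul (by norm_num)]
      congr 1
      rw [Int.cast_natCast, abs_of_nonneg (Nat.cast_nonneg n)]
      ring
    simp_rw [h2]
    apply summable_geometric_of_lt_one (by positivity)
    apply Real.rpow_lt_one_of_one_lt_of_neg (by norm_num)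
    linarith
  apply Summable.of_nat_of_neg h1
  convert! h1 using 2 with n
  simp

/-- the pointwise inequality -/
theorem pointwise (q₁ p q₂ : ℝ) (hq : 1 ≤ q₁) (h1 : q₁ < p) (h2 : p < q₂) :
    ∃ W : ℝ≥0, ∀ a : ℤ → ℝ≥0∞, (∑' l, a l) ^ p ≤ (W : ℝ≥0∞) *
      ∑' l : ℤ, (ENNReal.ofReal ((2 : ℝ) ^ ((l : ℝ) * (p - q₁))) * a l ^ q₁ +
        ENNReal.ofReal ((2 : ℝ) ^ ((l : ℝ) * (p - q₂))) * a l ^ q₂) := by
  have hq1 : 0 < q₁ := by linarith
  have hp : 0 < p := by linarith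
  have hq2 : 0 < q₂ := by linarith
  set θ₁ := (p - q₁) / q₁ with hθ₁
  set θ₂ := (q₂ - p) / q₂ with hθ₂
  have hθ₁0 : 0 < θ₁ := div_pos (by linarith) hq1
  have hθ₂0 : 0 < θ₂ := div_pos (by linarith) hq2
  set θ := min θ₁ θ₂ with hθ
  have hθ0 : 0 < θ := lt_min hθ₁0 hθ₂0
  have hs := ww_sum θ θ₁ hθ0
  set W := ∑' j, ww θ θ₁ j with hW
  have hW0 : 0 ≤ W := tsum_nonneg fun j => (ww_pos θ θ₁ j).le
  have hWe : ∑' j, ENNReal.ofReal (ww θ θ₁ j) = ENNReal.ofReal W :=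
    (ENNReal.ofReal_tsum_of_nonneg (fun j => (ww_pos θ θ₁ j).le) hs).symm
  have hWpos : 0 < W := hs.tsum_pos (fun j => (ww_pos θ θ₁ j).le) 0 (ww_pos θ θ₁ 0)
  refine ⟨(W ^ p).toNNReal, fun a => ?_⟩
  have hC : ((W ^ p).toNNReal : ℝ≥0∞) = ENNReal.ofReal (W ^ p) := rfl
  rw [hC]
  set R := ∑' l : ℤ, (ENNReal.ofReal ((2 : ℝ) ^ ((l : ℝ) * (p - q₁))) * a l ^ q₁ +
        ENNReal.ofReal ((2 : ℝ) ^ ((l : ℝ) * (p - q₂))) * a l ^ q₂) with hR
  have hterm : ∀ l : ℤ, ENNReal.ofReal ((2 : ℝ) ^ ((l : ℝ) * (p - q₁))) * a l ^ q₁ +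
        ENNReal.ofReal ((2 : ℝ) ^ ((l : ℝ) * (p - q₂))) * a l ^ q₂ ≤ R := fun l =>
    ENNReal.le_tsum (f := fun l : ℤ => ENNReal.ofReal ((2 : ℝ) ^ ((l : ℝ) * (p - q₁))) * a l ^ q₁ +
        ENNReal.ofReal ((2 : ℝ) ^ ((l : ℝ) * (p - q₂))) * a l ^ q₂) l
  -- the general bound of a term
  have hgen : ∀ (q : ℝ), 0 < q → ∀ (l : ℤ) (x : ℝ), 0 < x → R = ENNReal.ofReal (x ^ p) →
      ENNReal.ofReal ((2 : ℝ) ^ ((l : ℝ) * (p - q))) * a l ^ q ≤ R →
      a l ≤ ENNReal.ofReal (x * ((2 : ℝ) ^ (l : ℝ) / x) ^ ((q - p) / q)) := by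
    intro q hq l x hx hRx hle
    have e1 : a l ^ q ≤ ENNReal.ofReal ((2 : ℝ) ^ ((l : ℝ) * (q - p)) * x ^ p) := by
      have e2 : a l ^ q = ENNReal.ofReal ((2 : ℝ) ^ ((l : ℝ) * (q - p))) *
          (ENNReal.ofReal ((2 : ℝ) ^ ((l : ℝ) * (p - q))) * a l ^ q) := by
        rw [← mul_assoc, ← ENNReal.ofReal_mul (by positivity), ← Real.rpow_add (by norm_num)]
        rw [show (l : ℝ) * (q - p) + (l : ℝ) * (p - q) = 0 by ring]
        simp
      rw [e2, ENNReal.ofReal_mul (by positivity), ← hRx]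
      gcongr
    have e3 : a l ≤ (ENNReal.ofReal ((2 : ℝ) ^ ((l : ℝ) * (q - p)) * x ^ p)) ^ (1 / q) := by
      rw [one_div]
      exact (ENNReal.le_rpow_inv_iff hq).2 e1
    refine e3.trans (le_of_eq ?_)
    rw [ENNReal.ofReal_rpow_of_nonneg (by positivity) (by positivity)]
    congr 1
    rw [Real.mul_rpow (by positivity) (by positivity), ← Real.rpow_mul (by norm_num),
      ← Real.rpow_mul hx.le, Real.div_rpow (by positivity) hx.le, ← Real.rpow_mul (by norm_num)]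
    rw [show (l : ℝ) * (q - p) * (1 / q) = (l : ℝ) * ((q - p) / q) by ring]
    have e4 : x ^ (p * (1 / q)) = x / x ^ ((q - p) / q) := by
      rw [show p * (1 / q) = 1 - (q - p) / q by field_simp; ring, Real.rpow_sub hx, Real.rpow_one]
    rw [e4]
    ring
  rcases eq_or_ne R 0 with h0 | h0
  · have ha : ∀ l, a l = 0 := by
      intro l
      have := hterm l
      rw [h0, nonpos_iff_eq_zero, add_eq_zero] at this
      have h3 := this.1
      rw [mul_eq_zero] at h3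
      rcases h3 with h3 | h3
      · have : 0 < (2 : ℝ) ^ ((l : ℝ) * (p - q₁)) := by positivity
        rw [ENNReal.ofReal_eq_zero] at h3
        linarith
      · rwa [ENNReal.rpow_eq_zero_iff_of_pos hq1] at h3
    simp [ha, hp]
  rcases eq_or_ne R ⊤ with ht | ht
  · rw [ht, ENNReal.mul_top]
    · exact le_top
    · rw [ne_eq, ENNReal.ofReal_eq_zero, not_le]
      positivity
  -- R is positive and finite
  set x := (R.toReal) ^ (1 / p) with hx
  have hR0 : 0 < R.toReal := ENNReal.toReal_pos h0 ht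
  have hx0 : 0 < x := by positivity
  have hRx : R = ENNReal.ofReal (x ^ p) := by
    rw [hx, ← Real.rpow_mul hR0.le, one_div, inv_mul_cancel₀ hp.ne', Real.rpow_one,
      ENNReal.ofReal_toReal ht]
  obtain ⟨k, hk1, hk2⟩ := exists_mem_Ico_zpow hx0 (by norm_num : (1 : ℝ) < 2)
  have hk1' : (2 : ℝ) ^ (k : ℝ) ≤ x := by
    rw [Real.rpow_intCast]
    exact hk1
  have hk2' : x ≤ (2 : ℝ) ^ ((k : ℝ) + 1) := by
    have : (k : ℝ) + 1 = ((k + 1 : ℤ) : ℝ) := by push_cast; ring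
    rw [this, Real.rpow_intCast]
    exact hk2.le
  have hbound : ∀ j : ℤ, a (j + k) ≤ ENNReal.ofReal x * ENNReal.ofReal (ww θ θ₁ j) := by
    intro j
    rw [← ENNReal.ofReal_mul hx0.le]
    have hle := hterm (j + k)
    rcases lt_or_ge j 0 with hj | hj
    · -- use q₂
      refine (hgen q₂ hq2 (j + k) x hx0 hRx ((le_add_self).trans hle)).trans ?_
      apply ENNReal.ofReal_le_ofReal
      apply mul_le_mul_of_nonneg_left _ hx0.le
      change ((2 : ℝ) ^ (((j + k : ℤ)) : ℝ) / x) ^ θ₂ ≤ _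
      have e1 : (2 : ℝ) ^ (((j + k : ℤ)) : ℝ) / x ≤ (2 : ℝ) ^ (j : ℝ) := by
        rw [div_le_iff₀ hx0, Int.cast_add, Real.rpow_add (by norm_num)]
        gcongr
      calc ((2 : ℝ) ^ (((j + k : ℤ)) : ℝ) / x) ^ θ₂ ≤ ((2 : ℝ) ^ (j : ℝ)) ^ θ₂ :=
            Real.rpow_le_rpow (by positivity) e1 hθ₂0.le
        _ = (2 : ℝ) ^ ((j : ℝ) * θ₂) := by rw [← Real.rpow_mul (by norm_num)]
        _ ≤ (2 : ℝ) ^ (θ₁ + -(θ * |(j : ℝ)|)) := by
            apply Real.rpow_le_rpow_of_exponent_le (by norm_num)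
            have hj' : (j : ℝ) < 0 := by exact_mod_cast hj
            rw [abs_of_neg hj']
            have : θ ≤ θ₂ := min_le_right _ _
            nlinarith
        _ = ww θ θ₁ j := by
            unfold ww
            rw [Real.rpow_add (by norm_num)]
    · refine (hgen q₁ hq1 (j + k) x hx0 hRx ((le_self_add).trans hle)).trans ?_
      apply ENNReal.ofReal_le_ofReal
      apply mul_le_mul_of_nonneg_left _ hx0.le
      have hneg : (q₁ - p) / q₁ = -θ₁ := by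
        rw [hθ₁]
        ring
      rw [hneg]
      have e1 : (2 : ℝ) ^ ((j : ℝ) - 1) ≤ (2 : ℝ) ^ (((j + k : ℤ)) : ℝ) / x := by
        rw [le_div_iff₀ hx0]
        calc (2 : ℝ) ^ ((j : ℝ) - 1) * x ≤ (2 : ℝ) ^ ((j : ℝ) - 1) * (2 : ℝ) ^ ((k : ℝ) + 1) := by
              gcongr
          _ = _ := by
              rw [← Real.rpow_add (by norm_num)]
              congr 1
              push_cast
              ring
      calc ((2 : ℝ) ^ (((j + k : ℤ)) : ℝ) / x) ^ (-θ₁) ≤ ((2 : ℝ) ^ ((j : ℝ) - 1)) ^ (-θ₁) :=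
            Real.rpow_le_rpow_of_nonpos (by positivity) e1 (by linarith)
        _ = (2 : ℝ) ^ (((j : ℝ) - 1) * (-θ₁)) := by rw [← Real.rpow_mul (by norm_num)]
        _ ≤ (2 : ℝ) ^ (θ₁ + -(θ * |(j : ℝ)|)) := by
            apply Real.rpow_le_rpow_of_exponent_le (by norm_num)
            have hj' : (0 : ℝ) ≤ (j : ℝ) := by exact_mod_cast hj
            rw [abs_of_nonneg hj']
            have : θ ≤ θ₁ := min_le_left _ _
            nlinarith
        _ = ww θ θ₁ j := by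
            unfold ww
            rw [Real.rpow_add (by norm_num)]
  have hsum : ∑' l, a l ≤ ENNReal.ofReal x * ENNReal.ofReal W := by
    rw [← (Equiv.addRight k).tsum_eq a, ← hWe, ← ENNReal.tsum_mul_left]
    exact ENNReal.tsum_le_tsum hbound
  calc (∑' l, a l) ^ p ≤ (ENNReal.ofReal x * ENNReal.ofReal W) ^ p :=
        ENNReal.rpow_le_rpow hsum hp.le
    _ = _ := by
        rw [← ENNReal.ofReal_mul hx0.le, ENNReal.ofReal_rpow_of_nonneg (by positivity) hp.le,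
          Real.mul_rpow hx0.le hW0, hRx, ← ENNReal.ofReal_mul (by positivity), mul_comm]

/-- module MARC -/
theorem MARC_proof : T_MARC := by
  intro q₁ p q₂ hq h1 h2
  obtain ⟨W, hW⟩ := pointwise q₁ p q₂ hq h1 h2
  refine ⟨W * 2, ?_⟩
  intro Y _ ν g m B hg hm1 hm2
  calc ∫⁻ y, (∑' l, g l y) ^ p ∂ν ≤ ∫⁻ y, (W : ℝ≥0∞) *
      ∑' l : ℤ, (ENNReal.ofReal ((2 : ℝ) ^ ((l : ℝ) * (p - q₁))) * g l y ^ q₁ +
        ENNReal.ofReal ((2 : ℝ) ^ ((l : ℝ) * (p - q₂))) * g l y ^ q₂) ∂ν :=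
        lintegral_mono fun y => hW fun l => g l y
    _ = (W : ℝ≥0∞) * ∑' l : ℤ, (ENNReal.ofReal ((2 : ℝ) ^ ((l : ℝ) * (p - q₁))) *
        ∫⁻ y, g l y ^ q₁ ∂ν + ENNReal.ofReal ((2 : ℝ) ^ ((l : ℝ) * (p - q₂))) *
        ∫⁻ y, g l y ^ q₂ ∂ν) := by
        have hmeas : ∀ (l : ℤ) (q : ℝ), Measurable fun y =>
            ENNReal.ofReal ((2 : ℝ) ^ ((l : ℝ) * (p - q))) * g l y ^ q := fun l q =>
          ((hg l).pow_const q).const_mul _
        have hmeas2 : ∀ l : ℤ, Measurable fun y =>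
            ENNReal.ofReal ((2 : ℝ) ^ ((l : ℝ) * (p - q₁))) * g l y ^ q₁ +
            ENNReal.ofReal ((2 : ℝ) ^ ((l : ℝ) * (p - q₂))) * g l y ^ q₂ := fun l =>
          (hmeas l q₁).add (hmeas l q₂)
        rw [lintegral_const_mul _ (Measurable.tsum hmeas2),
          lintegral_tsum fun l => (hmeas2 l).aemeasurable]
        congr 2
        funext l
        rw [lintegral_add_left (hmeas l q₁), lintegral_const_mul _ ((hg l).pow_const q₁),
          lintegral_const_mul _ ((hg l).pow_const q₂)]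
    _ ≤ (W : ℝ≥0∞) * ∑' l : ℤ, 2 * B * (ENNReal.ofReal ((2 : ℝ) ^ ((l : ℝ) * p)) * m l) := by
        gcongr with l
        have key : ∀ q : ℝ, ENNReal.ofReal ((2 : ℝ) ^ ((l : ℝ) * (p - q))) *
            (B * ENNReal.ofReal ((2 : ℝ) ^ ((l : ℝ) * q)) * m l)
            = B * (ENNReal.ofReal ((2 : ℝ) ^ ((l : ℝ) * p)) * m l) := by
          intro q
          have e1 : (2 : ℝ) ^ ((l : ℝ) * p) = (2 : ℝ) ^ ((l : ℝ) * (p - q)) *
              (2 : ℝ) ^ ((l : ℝ) * q) := by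
            rw [← Real.rpow_add (by norm_num)]
            congr 1
            ring
          rw [e1, ENNReal.ofReal_mul (by positivity)]
          ring
        calc _ ≤ ENNReal.ofReal ((2 : ℝ) ^ ((l : ℝ) * (p - q₁))) *
              (B * ENNReal.ofReal ((2 : ℝ) ^ ((l : ℝ) * q₁)) * m l) +
              ENNReal.ofReal ((2 : ℝ) ^ ((l : ℝ) * (p - q₂))) *
              (B * ENNReal.ofReal ((2 : ℝ) ^ ((l : ℝ) * q₂)) * m l) := by
              gcongr
              · exact hm1 l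
              · exact hm2 l
          _ = _ := by
              rw [key, key]
              ring
    _ = _ := by
        rw [ENNReal.tsum_mul_left]
        push_cast
        ring

end Pool.Agent.H19.LS
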