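import Mathlib
import Pool.Agent.H83.LS.Targets3
import Pool.Agent.H83.LS.Basic

/-!
# Module PC2: the weighted piece
-/

set_option autoImplicit false

namespace Pool.Agent.H19.LS

open MeasureTheory Set Pool.Agent.H83.LS
open scoped ENNReal NNReal ContDiff

theorem eta0_smooth : ContDiff ℝ ∞ eta0 := by
  unfold eta0
  exact Real.smoothTransition.contDiff.comp (contDiff_const.sub contDiff_id)

theorem eta0_one (s : ℝ) (h : s ≤ 1) : eta0 s = 1 :=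
  Real.smoothTransition.one_of_one_le (by linarith)

theorem eta0_zero (s : ℝ) (h : 2 ≤ s) : eta0 s = 0 :=
  Real.smoothTransition.zero_of_nonpos (by linarith)

theorem eta0_mem (s : ℝ) : 0 ≤ eta0 s ∧ eta0 s ≤ 1 :=
  ⟨Real.smoothTransition.nonneg _, Real.smoothTransition.le_one _⟩

theorem chis_smooth : ContDiff ℝ ∞ chis := by
  unfold chis
  exact (eta0_smooth.comp (contDiff_id.div_const 2)).sub
    (eta0_smooth.comp (contDiff_const.mul contDiff_id))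

theorem chi_smooth : ContDiff ℝ ∞ chi := by
  unfold chi
  exact eta0_smooth.sub (eta0_smooth.comp (contDiff_const.mul contDiff_id))

theorem chis_supp (s : ℝ) (h : chis s ≠ 0) : 1 / 4 ≤ s ∧ s ≤ 4 := by
  unfold chis at h
  constructor
  · by_contra hc
    rw [not_le] at hc
    apply h
    rw [eta0_one _ (by linarith), eta0_one _ (by linarith), sub_self]
  · by_contra hc
    rw [not_le] at hc
    apply h
    rw [eta0_zero _ (by linarith), eta0_zero _ (by linarith), sub_self]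

theorem chi_supp (s : ℝ) (h : chi s ≠ 0) : 1 / 2 ≤ s ∧ s ≤ 2 := by
  unfold chi at h
  constructor
  · by_contra hc
    rw [not_le] at hc
    apply h
    rw [eta0_one _ (by linarith), eta0_one _ (by linarith), sub_self]
  · by_contra hc
    rw [not_le] at hc
    apply h
    rw [eta0_zero _ (by linarith), eta0_zero _ (by linarith), sub_self]

theorem chi_abs (s : ℝ) : |chi s| ≤ 1 := by
  unfold chi
  have h1 := eta0_mem s
  have h2 := eta0_mem (2 * s)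
  rw [abs_le]
  constructor <;> linarith [h1.1, h1.2, h2.1, h2.2]

theorem chis_abs (s : ℝ) : |chis s| ≤ 1 := by
  unfold chis
  have h1 := eta0_mem (s / 2)
  have h2 := eta0_mem (4 * s)
  rw [abs_le]
  constructor <;> linarith [h1.1, h1.2, h2.1, h2.2]

theorem chis_CB (M : ℕ) : ∃ B : ℝ, 0 ≤ B ∧ CB M B (fun σ => ((chis σ : ℝ) : ℂ)) := by
  have hd : ContDiff ℝ ∞ (fun σ : ℝ => ((chis σ : ℝ) : ℂ)) :=
    Complex.ofRealCLM.contDiff.comp chis_smooth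
  have hsup : ∀ σ : ℝ, ((chis σ : ℝ) : ℂ) ≠ 0 → 1 / 4 ≤ σ ∧ σ ≤ 4 := by
    intro σ h
    apply chis_supp
    intro h0
    apply h
    rw [h0]
    simp
  have hcs : HasCompactSupport (fun σ : ℝ => ((chis σ : ℝ) : ℂ)) := by
    refine HasCompactSupport.of_support_subset_isCompact (isCompact_Icc (a := (1 / 4 : ℝ)) (b := 4)) ?_
    intro σ hσ
    exact hsup σ hσ
  have hb : ∀ k : ℕ, ∃ B : ℝ, ∀ σ, ‖iteratedDeriv k (fun σ : ℝ => ((chis σ : ℝ) : ℂ)) σ‖ ≤ B := by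
    intro k
    have h1 : Continuous (iteratedDeriv k (fun σ : ℝ => ((chis σ : ℝ) : ℂ))) :=
      hd.continuous_iteratedDeriv k (by exact_mod_cast le_top)
    have h2 : HasCompactSupport (iteratedDeriv k (fun σ : ℝ => ((chis σ : ℝ) : ℂ))) := by
      have h3 := hcs.iteratedFDeriv (𝕜 := ℝ) k
      have h4 : iteratedDeriv k (fun σ : ℝ => ((chis σ : ℝ) : ℂ)) =
          fun σ => (iteratedFDeriv ℝ k (fun σ : ℝ => ((chis σ : ℝ) : ℂ)) σ) (fun _ => 1) := by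
        funext σ
        rfl
      rw [h4]
      exact h3.comp_left (g := fun L => L (fun _ => (1 : ℝ))) rfl
    exact h1.bounded_above_of_compact_support h2
  choose B hB using hb
  refine ⟨∑ k ∈ Finset.range (M + 1), |B k|, Finset.sum_nonneg fun _ _ => abs_nonneg _, hd,
    fun σ h => ?_, fun k hk σ => ?_⟩
  · have := hsup σ h
    constructor <;> linarith [this.1, this.2]
  · refine (hB k σ).trans ((le_abs_self _).trans ?_)
    exact Finset.single_le_sum (f := fun k => |B k|) (fun _ _ => abs_nonneg _)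
      (Finset.mem_range.2 (by omega))

/-- the symbol of `KK` -/
theorem symb_int (t lam Lam : ℝ) (hl : 0 < lam) : Integrable fun ξ : ℝ × ℝ =>
    e (t * Real.sqrt (ξ.1 ^ 2 + ξ.2 ^ 2)) *
      ((chi (Real.sqrt (ξ.1 ^ 2 + ξ.2 ^ 2) / lam) * chis (ξ.1 / Lam) : ℝ) : ℂ) := by
  have hcont : Continuous fun ξ : ℝ × ℝ => e (t * Real.sqrt (ξ.1 ^ 2 + ξ.2 ^ 2)) *
      ((chi (Real.sqrt (ξ.1 ^ 2 + ξ.2 ^ 2) / lam) * chis (ξ.1 / Lam) : ℝ) : ℂ) := by
    have h1 := chi_smooth.continuous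
    have h2 := chis_smooth.continuous
    exact (continuous_e.comp (by fun_prop)).mul (Complex.continuous_ofReal.comp
      ((h1.comp (by fun_prop)).mul (h2.comp (by fun_prop))))
  apply hcont.integrable_of_hasCompactSupport
  refine HasCompactSupport.of_support_subset_isCompact
    (isCompact_closedBall (0 : ℝ × ℝ) (2 * lam)) ?_
  intro ξ hξ
  have h1 : chi (Real.sqrt (ξ.1 ^ 2 + ξ.2 ^ 2) / lam) ≠ 0 := by
    intro h0
    apply hξ
    simp only
    rw [h0]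
    simp
  have h2 := (chi_supp _ h1).2
  rw [div_le_iff₀ hl] at h2
  rw [mem_closedBall_zero_iff, Prod.norm_def]
  apply max_le
  · rw [Real.norm_eq_abs]
    refine (Real.abs_le_sqrt ?_).trans h2
    nlinarith [sq_nonneg ξ.2]
  · rw [Real.norm_eq_abs]
    refine (Real.abs_le_sqrt ?_).trans h2
    nlinarith [sq_nonneg ξ.1]

theorem KK_cont (t lam Lam : ℝ) (hl : 0 < lam) : Continuous (KK t lam Lam) := by
  have h0 := symb_int t lam Lam hl
  have h1 : KK t lam Lam = fun x => ∫ ξ : ℝ × ℝ, e (x.1 * ξ.1 + x.2 * ξ.2) *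
      (e (t * Real.sqrt (ξ.1 ^ 2 + ξ.2 ^ 2)) *
      ((chi (Real.sqrt (ξ.1 ^ 2 + ξ.2 ^ 2) / lam) * chis (ξ.1 / Lam) : ℝ) : ℂ)) := by
    funext x
    unfold KK
    refine integral_congr_ae (Filter.Eventually.of_forall fun ξ => ?_)
    simp only
    rw [e_add]
    ring
  rw [h1]
  apply continuous_of_dominated (bound := fun ξ : ℝ × ℝ =>
    ‖e (t * Real.sqrt (ξ.1 ^ 2 + ξ.2 ^ 2)) *
      ((chi (Real.sqrt (ξ.1 ^ 2 + ξ.2 ^ 2) / lam) * chis (ξ.1 / Lam) : ℝ) : ℂ)‖)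
  · intro x
    exact ((continuous_e.comp (by fun_prop)).aestronglyMeasurable).mul h0.aestronglyMeasurable
  · intro x
    refine Filter.Eventually.of_forall fun ξ => ?_
    rw [norm_mul, norm_e, one_mul]
  · exact h0.norm
  · refine Filter.Eventually.of_forall fun ξ => ?_
    exact (continuous_e.comp (by fun_prop)).mul continuous_const

theorem cv_meas (K g : ℝ × ℝ → ℂ) (hK : Continuous K) (hg : Measurable g) : Measurable (cv K g) := by
  unfold cv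
  have h1 : StronglyMeasurable (Function.uncurry fun x y : ℝ × ℝ => K (x - y) * g y) := by
    apply Measurable.stronglyMeasurable
    exact (hK.measurable.comp (measurable_fst.sub measurable_snd)).mul (hg.comp measurable_snd)
  exact h1.integral_prod_right.measurable

/-- the part common to `PC0` and `PC2` -/
theorem piece_weight (hRED2 : T_RED2) (hWRED : T_WRED) (hKAP : T_KAP) (n : ℕ) (p β : ℝ)
    (hn : 2 ≤ n) (hp : 1 ≤ p) (hβ : 0 ≤ β) (hβ1 : β < 1) : ∃ C : ℝ≥0, ∀ (lam Lam t A : ℝ)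
    (F : ℝ × ℝ → ℂ), 0 < lam → 0 < Lam → PF A F → Measurable (GG n Lam F) →
    ∫⁻ z : ℝ, ∫⁻ r in Ioi (0 : ℝ), ‖PU n lam Lam t F (r, z)‖ₑ ^ p * ENNReal.ofReal (r ^ (-β)) ≤
      C * ∫⁻ x : ℝ × ℝ, ‖cv (KK t lam Lam) (GG n Lam F) x‖ₑ ^ p *
        ENNReal.ofReal ((|x.1| + 1 / Lam) ^ (-β)) := by
  obtain ⟨M, C1, hC1⟩ := hKAP n 4 hn
  obtain ⟨B, hB0, hB⟩ := chis_CB M
  obtain ⟨C2, hC2⟩ := hWRED p β hp hβ hβ1
  refine ⟨(|C1 * B| ^ p).toNNReal * C2, ?_⟩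
  intro lam Lam t A F hlam hLam hF hGm
  set V : ℝ × ℝ → ℝ≥0∞ := fun x => ‖cv (KK t lam Lam) (GG n Lam F) x‖ₑ with hV
  have hVm : Measurable V := (cv_meas _ _ (KK_cont t lam Lam hlam) hGm).enorm
  have h1 : ∀ z : ℝ, ∀ r ∈ Ioi (0 : ℝ), ‖PU n lam Lam t F (r, z)‖ₑ ≤ ENNReal.ofReal |C1 * B| *
      ∫⁻ x₁ : ℝ, ENNReal.ofReal
      (Lam * (((1 + |Lam * x₁ - Lam * r|) ^ 4)⁻¹ + ((1 + |Lam * x₁ + Lam * r|) ^ 4)⁻¹)) *
      V (x₁, z) := by
    intro z r hr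
    rw [hRED2 n lam Lam t A F hn hlam hLam hF r z hr]
    refine (enorm_integral_le_lintegral_enorm _).trans ?_
    rw [← lintegral_const_mul' _ _ ENNReal.ofReal_ne_top]
    refine lintegral_mono fun x₁ => ?_
    rw [enorm_mul, ← mul_assoc]
    apply mul_le_mul' _ le_rfl
    rw [← ENNReal.ofReal_mul (abs_nonneg _), ← ofReal_norm]
    apply ENNReal.ofReal_le_ofReal
    rw [RCLike.norm_conj, norm_mul, Complex.norm_real, Real.norm_of_nonneg hLam.le]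
    have h2 := hC1 (fun σ => ((chis σ : ℝ) : ℂ)) B (Lam * x₁) (Lam * r) hB
      (mul_nonneg hLam.le (le_of_lt hr))
    calc Lam * ‖kp n (fun σ => ((chis σ : ℝ) : ℂ)) (Lam * x₁) (Lam * r)‖
        ≤ Lam * (C1 * B * (((1 + |Lam * x₁ - Lam * r|) ^ 4)⁻¹ +
          ((1 + |Lam * x₁ + Lam * r|) ^ 4)⁻¹)) := by gcongr
      _ ≤ Lam * (|C1 * B| * (((1 + |Lam * x₁ - Lam * r|) ^ 4)⁻¹ +
          ((1 + |Lam * x₁ + Lam * r|) ^ 4)⁻¹)) := by
          gcongr
          exact le_abs_self _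
      _ = _ := by ring
  have hp0 : 0 ≤ p := by linarith
  calc ∫⁻ z : ℝ, ∫⁻ r in Ioi (0 : ℝ), ‖PU n lam Lam t F (r, z)‖ₑ ^ p * ENNReal.ofReal (r ^ (-β))
      ≤ ∫⁻ z : ℝ, ∫⁻ r in Ioi (0 : ℝ), ENNReal.ofReal (|C1 * B| ^ p) * ((∫⁻ x₁ : ℝ, ENNReal.ofReal
      (Lam * (((1 + |Lam * x₁ - Lam * r|) ^ 4)⁻¹ + ((1 + |Lam * x₁ + Lam * r|) ^ 4)⁻¹)) *
      V (x₁, z)) ^ p * ENNReal.ofReal (r ^ (-β))) := by
        refine lintegral_mono fun z => setLIntegral_mono' measurableSet_Ioi fun r hr => ?_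
        rw [← mul_assoc]
        apply mul_le_mul' _ le_rfl
        refine (ENNReal.rpow_le_rpow (h1 z r hr) hp0).trans (le_of_eq ?_)
        rw [ENNReal.mul_rpow_of_nonneg _ _ hp0, ENNReal.ofReal_rpow_of_nonneg (abs_nonneg _) hp0]
    _ = ENNReal.ofReal (|C1 * B| ^ p) * ∫⁻ z : ℝ, ∫⁻ r in Ioi (0 : ℝ), (∫⁻ x₁ : ℝ, ENNReal.ofReal
      (Lam * (((1 + |Lam * x₁ - Lam * r|) ^ 4)⁻¹ + ((1 + |Lam * x₁ + Lam * r|) ^ 4)⁻¹)) *
      V (x₁, z)) ^ p * ENNReal.ofReal (r ^ (-β)) := by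
        rw [← lintegral_const_mul' _ _ ENNReal.ofReal_ne_top]
        refine lintegral_congr fun z => ?_
        rw [lintegral_const_mul' _ _ ENNReal.ofReal_ne_top]
    _ ≤ ENNReal.ofReal (|C1 * B| ^ p) * (C2 * ∫⁻ x : ℝ × ℝ, V x ^ p *
        ENNReal.ofReal ((|x.1| + 1 / Lam) ^ (-β))) :=
        mul_le_mul' le_rfl (hC2 Lam V hLam hVm)
    _ = _ := by
        rw [← mul_assoc]
        rfl

/-- module PC2 -/
theorem PC2_proof (hRED2 : T_RED2) (hGB : T_GB) (hS2D : T_S2D) (hWRED : T_WRED) (hKAP : T_KAP) :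
    T_PC2 := by
  intro n p β η hn hp hp3 hβ hβ1 hη
  obtain ⟨C0, hC0⟩ := piece_weight hRED2 hWRED hKAP n p β hn (by linarith) hβ hβ1
  obtain ⟨⟨C3, hC30, hC3⟩, -⟩ := hGB n hn
  obtain ⟨C4, hC4⟩ := hS2D p η hp hp3 hη
  refine ⟨C0 * C4 * (C3 ^ (p - 2) * C3).toNNReal, ?_⟩
  intro lam Lam A F hlam hLam hLl hF
  have hA0 : 0 ≤ A := (norm_nonneg _).trans (hF.2.1 0)
  have hlam0 : 0 < lam := by linarith
  obtain ⟨g1, g2, g3, g4⟩ := hC3 Lam A F hLam hF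
  have h1 := (hC4 lam Lam (GG n Lam F) (C3 * A) hlam hLam hLl g1 g2 g3).1
  have h2 : ∀ t : ℝ, ∫⁻ z : ℝ, ∫⁻ r in Ioi (0 : ℝ),
      ‖PU n lam Lam t F (r, z)‖ₑ ^ p * ENNReal.ofReal (r ^ (-β)) ≤
      (C0 * ENNReal.ofReal (Lam ^ β)) * ∫⁻ x : ℝ × ℝ, ‖cv (KK t lam Lam) (GG n Lam F) x‖ₑ ^ p := by
    intro t
    refine (hC0 lam Lam t A F hlam0 hLam hF g1).trans ?_
    rw [mul_assoc]
    apply mul_le_mul' le_rfl
    rw [← lintegral_const_mul' _ _ ENNReal.ofReal_ne_top]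
    refine lintegral_mono fun x => ?_
    simp only
    rw [mul_comm]
    apply mul_le_mul' _ le_rfl
    apply ENNReal.ofReal_le_ofReal
    have h3 : 0 < 1 / Lam := by positivity
    calc (|x.1| + 1 / Lam) ^ (-β) ≤ (1 / Lam) ^ (-β) := by
          apply Real.rpow_le_rpow_of_nonpos h3 (by linarith [abs_nonneg x.1]) (by linarith)
      _ = Lam ^ β := by
          rw [one_div, Real.inv_rpow hLam.le, Real.rpow_neg hLam.le, inv_inv]
  calc ∫⁻ t in Icc (1 : ℝ) 2, ∫⁻ z : ℝ, ∫⁻ r in Ioi (0 : ℝ),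
      ‖PU n lam Lam t F (r, z)‖ₑ ^ p * ENNReal.ofReal (r ^ (-β))
      ≤ ∫⁻ t in Icc (1 : ℝ) 2, (C0 * ENNReal.ofReal (Lam ^ β)) *
        ∫⁻ x : ℝ × ℝ, ‖cv (KK t lam Lam) (GG n Lam F) x‖ₑ ^ p := lintegral_mono fun t => h2 t
    _ = (C0 * ENNReal.ofReal (Lam ^ β)) * ∫⁻ t in Icc (1 : ℝ) 2,
        ∫⁻ x : ℝ × ℝ, ‖cv (KK t lam Lam) (GG n Lam F) x‖ₑ ^ p :=
        lintegral_const_mul' _ _ (ENNReal.mul_ne_top ENNReal.coe_ne_top ENNReal.ofReal_ne_top)
    _ ≤ (C0 * ENNReal.ofReal (Lam ^ β)) * (C4 * ENNReal.ofReal (lam ^ η * (C3 * A) ^ (p - 2)) *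
        (ENNReal.ofReal C3 * ∫⁻ y, ‖F y‖ₑ ^ 2)) := by
        apply mul_le_mul' le_rfl
        exact h1.trans (mul_le_mul' le_rfl g4)
    _ = _ := by
        have e1 : (C3 * A) ^ (p - 2) = C3 ^ (p - 2) * A ^ (p - 2) := Real.mul_rpow hC30 hA0
        have e2 : (((C3 ^ (p - 2) * C3).toNNReal : ℝ≥0) : ℝ≥0∞) = ENNReal.ofReal (C3 ^ (p - 2)) *
            ENNReal.ofReal C3 := by
          rw [← ENNReal.ofReal_mul (by positivity)]
          rfl
        rw [e1]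
        push_cast
        rw [e2, ENNReal.ofReal_mul (by positivity), ENNReal.ofReal_mul (by positivity),
          ENNReal.ofReal_mul (by positivity), ENNReal.ofReal_mul (by positivity)]
        ring

end Pool.Agent.H19.LS
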