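import Mathlib
import Pool.Agent.H83.LS.Targets1
import Pool.Agent.H83.LS.Basic

/-!
# Modules PL and CONV: Plancherel and Fourier inversion in the plane
-/

set_option autoImplicit false

namespace Pool.Agent.H19.LS

open MeasureTheory Set Pool.Agent.H83.LS
open scoped ENNReal NNReal FourierTransform RealInnerProductSpace ContDiff

/-- the Euclidean plane -/
abbrev V := WithLp 2 (ℝ × ℝ)

/-- the function on the Euclidean plane -/
def lift (f : ℝ × ℝ → ℂ) (v : V) : ℂ := f (WithLp.ofLp v)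

theorem int_lift (F : ℝ × ℝ → ℂ) : ∫ v : V, F (WithLp.ofLp v) = ∫ x, F x :=
  (WithLp.volume_preserving_ofLp (U := ℝ) (V := ℝ)).integral_comp
    (MeasurableEquiv.toLp 2 (ℝ × ℝ)).symm.measurableEmbedding F

theorem intR_lift (F : ℝ × ℝ → ℝ) : ∫ v : V, F (WithLp.ofLp v) = ∫ x, F x :=
  (WithLp.volume_preserving_ofLp (U := ℝ) (V := ℝ)).integral_comp
    (MeasurableEquiv.toLp 2 (ℝ × ℝ)).symm.measurableEmbedding F

theorem integrable_lift (F : ℝ × ℝ → ℂ) : Integrable (lift F) ↔ Integrable F :=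
  (WithLp.volume_preserving_ofLp (U := ℝ) (V := ℝ)).integrable_comp_emb
    (MeasurableEquiv.toLp 2 (ℝ × ℝ)).symm.measurableEmbedding

theorem inner_V (v w : V) : ⟪v, w⟫ = v.ofLp.1 * w.ofLp.1 + v.ofLp.2 * w.ofLp.2 := by
  rw [WithLp.prod_inner_apply]
  simp [mul_comm]

theorem Ff_eq (g : ℝ × ℝ → ℂ) (ζ : ℝ × ℝ) : Ff g ζ = 𝓕 (lift g) (WithLp.toLp 2 ζ) := by
  rw [Real.fourier_eq', Ff, ← int_lift]
  congr 1
  ext v
  rw [inner_V, smul_eq_mul]
  unfold e lift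
  congr 3
  push_cast
  ring

theorem Fi_eq (g : ℝ × ℝ → ℂ) (ζ : ℝ × ℝ) : Fi g ζ = 𝓕⁻ (lift g) (WithLp.toLp 2 ζ) := by
  rw [Real.fourierInv_eq', Fi, ← int_lift]
  refine integral_congr_ae (ae_of_all _ fun v => ?_)
  simp only
  rw [inner_V, smul_eq_mul]
  unfold e lift
  congr 4
  simp only
  ring

theorem lift_Fi (g : ℝ × ℝ → ℂ) : lift (Fi g) = 𝓕⁻ (lift g) := by
  ext v
  unfold lift
  rw [Fi_eq]
  rfl

theorem lift_Ff (g : ℝ × ℝ → ℂ) : lift (Ff g) = 𝓕 (lift g) := by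
  ext v
  unfold lift
  rw [Ff_eq]
  rfl

/-- the Schwartz function of a test function -/
noncomputable def sw (b : ℝ × ℝ → ℂ) (hb : TC b) : SchwartzMap V ℂ :=
  HasCompactSupport.toSchwartzMap (f := lift b)
    (hb.2.comp_homeomorph (WithLp.homeomorphProd 2 ℝ ℝ))
    (hb.1.comp (WithLp.prodContinuousLinearEquiv 2 ℝ ℝ ℝ).contDiff)

theorem sw_coe (b : ℝ × ℝ → ℂ) (hb : TC b) : (sw b hb : V → ℂ) = lift b := rfl

/-- the inverse Fourier transform as a Schwartz function -/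
noncomputable def swI (b : ℝ × ℝ → ℂ) (hb : TC b) : SchwartzMap V ℂ := 𝓕⁻ (sw b hb)

theorem swI_coe (b : ℝ × ℝ → ℂ) (hb : TC b) : (swI b hb : V → ℂ) = lift (Fi b) := by
  rw [lift_Fi, swI, SchwartzMap.fourierInv_coe, sw_coe]

theorem int_sq (f : ℝ × ℝ → ℂ) (F : SchwartzMap V ℂ) (h : (F : V → ℂ) = lift f) :
    ∫⁻ y, ‖f y‖ₑ ^ 2 = ENNReal.ofReal (∫ v, ‖F v‖ ^ 2) := by
  have h1 : Integrable (fun v : V => ‖F v‖ ^ 2) := by
    have := (F.memLp 2 (μ := volume)).integrable_norm_pow (by norm_num)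
    simpa using this
  rw [ofReal_integral_eq_lintegral_ofReal h1 (ae_of_all _ fun v => by positivity)]
  have h2 : ∀ v : V, ENNReal.ofReal (‖F v‖ ^ 2) = ‖f (WithLp.ofLp v)‖ₑ ^ 2 := by
    intro v
    rw [h, ENNReal.ofReal_pow (norm_nonneg _), ofReal_norm]
    rfl
  simp_rw [h2]
  have h3 := (WithLp.volume_preserving_ofLp (U := ℝ) (V := ℝ)).lintegral_comp_emb
    (MeasurableEquiv.toLp 2 (ℝ × ℝ)).symm.measurableEmbedding (fun y => ‖f y‖ₑ ^ 2)
  exact h3.symm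

/-- module PL -/
theorem PL_proof : T_PL := by
  constructor
  · intro b hb
    unfold l2
    rw [int_sq (Fi b) (swI b hb) (swI_coe b hb), int_sq b (sw b hb) (sw_coe b hb)]
    have h1 := SchwartzMap.integral_norm_sq_fourier (swI b hb)
    have h2 : 𝓕 (swI b hb) = sw b hb := FourierTransform.fourier_fourierInv_eq (sw b hb)
    rw [h2] at h1
    rw [h1]
  · intro b hb
    have h0 : Integrable (swI b hb : V → ℂ) := (swI b hb).integrable
    rw [swI_coe] at h0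
    refine ⟨(integrable_lift _).1 h0, fun ζ => ?_⟩
    have h2 : 𝓕 (swI b hb) = sw b hb := FourierTransform.fourier_fourierInv_eq (sw b hb)
    have h3 : (𝓕 (swI b hb) : SchwartzMap V ℂ) (WithLp.toLp 2 ζ) = lift b (WithLp.toLp 2 ζ) := by
      rw [h2, sw_coe]
    rw [Ff_eq, ← swI_coe b hb, ← SchwartzMap.fourier_coe]
    exact h3

theorem e_cont2 (y : ℝ × ℝ) : Continuous fun ζ : ℝ × ℝ => e (y.1 * ζ.1 + y.2 * ζ.2) :=
  continuous_e.comp (by fun_prop)

theorem integrable_prod_e (X b : ℝ × ℝ → ℂ) (hX : Integrable X) (hb : Integrable b)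
    (θ : (ℝ × ℝ) × (ℝ × ℝ) → ℝ) (hθ : Continuous θ) :
    Integrable (fun p : (ℝ × ℝ) × (ℝ × ℝ) => e (θ p) * (X p.1 * b p.2)) (volume.prod volume) := by
  apply (hX.mul_prod hb).bdd_mul (c := 1)
  · exact (continuous_e.comp hθ).aestronglyMeasurable
  · exact Filter.Eventually.of_forall (fun ζ => (norm_e _).le)

/-- module CONV -/
theorem CONV_proof : T_CONV := by
  intro χ b hχ hb y
  obtain ⟨hXi, hXv⟩ := PL_proof.2 χ hχ
  have hbi := hb.integrable
  have h1 : ∀ y' : ℝ × ℝ, Fi χ (y - y') * Fi b y'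
      = ∫ z : ℝ × ℝ, e (y'.1 * z.1 + y'.2 * z.2) * (Fi χ (y - y') * b z) := by
    intro y'
    conv_lhs => rw [Fi.eq_1 b]
    rw [← integral_const_mul]
    refine integral_congr_ae (ae_of_all _ fun z => ?_)
    simp only
    ring
  have hXs : Integrable (fun y' : ℝ × ℝ => Fi χ (y - y')) := hXi.comp_sub_left y
  simp_rw [h1]
  rw [integral_integral_swap (integrable_prod_e _ b hXs hbi
    (fun p => p.1.1 * p.2.1 + p.1.2 * p.2.2) (by fun_prop))]
  unfold Fi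
  refine integral_congr_ae (ae_of_all _ fun z => ?_)
  simp only
  have h2 : ∫ y' : ℝ × ℝ, e (y'.1 * z.1 + y'.2 * z.2) * (Fi χ (y - y') * b z)
      = ∫ u : ℝ × ℝ, e ((y - u).1 * z.1 + (y - u).2 * z.2) * (Fi χ u * b z) := by
    rw [← integral_sub_left_eq_self
      (fun u : ℝ × ℝ => e ((y - u).1 * z.1 + (y - u).2 * z.2) * (Fi χ u * b z)) volume y]
    refine integral_congr_ae (ae_of_all _ fun u => ?_)
    simp only [sub_sub_cancel]
  change _ = ∫ y' : ℝ × ℝ, e (y'.1 * z.1 + y'.2 * z.2) * (Fi χ (y - y') * b z)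
  rw [h2]
  have h3 : ∀ u : ℝ × ℝ, e ((y - u).1 * z.1 + (y - u).2 * z.2) * (Fi χ u * b z)
      = (e (y.1 * z.1 + y.2 * z.2) * b z) * (e (-(u.1 * z.1 + u.2 * z.2)) * Fi χ u) := by
    intro u
    rw [show (y - u).1 * z.1 + (y - u).2 * z.2
      = (y.1 * z.1 + y.2 * z.2) + (-(u.1 * z.1 + u.2 * z.2)) by
        simp only [Prod.fst_sub, Prod.snd_sub]; ring, e_add]
    ring
  simp_rw [h3]
  rw [integral_const_mul]
  have h4 : ∫ u : ℝ × ℝ, e (-(u.1 * z.1 + u.2 * z.2)) * Fi χ u = χ z := hXv z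
  rw [h4]
  ring

/-- Fubini for a bounded multiplier -/
theorem fub (χ g : ℝ × ℝ → ℂ) (hχ : Integrable χ) (hg : Integrable g) (y : ℝ × ℝ) :
    Fi (fun ζ => χ ζ * Ff g ζ) y = ∫ y', Fi χ (y - y') * g y' := by
  have h1 : ∀ y' : ℝ × ℝ, Fi χ (y - y') * g y'
      = ∫ z : ℝ × ℝ, e ((y - y').1 * z.1 + (y - y').2 * z.2) * (g y' * χ z) := by
    intro y'
    unfold Fi
    rw [← integral_mul_const]
    refine integral_congr_ae (ae_of_all _ fun z => ?_)
    simp only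
    ring
  simp_rw [h1]
  rw [integral_integral_swap (integrable_prod_e g χ hg hχ
    (fun p => (y - p.1).1 * p.2.1 + (y - p.1).2 * p.2.2) (by fun_prop))]
  conv_lhs => unfold Fi
  refine integral_congr_ae (ae_of_all _ fun z => ?_)
  simp only
  conv_lhs => rw [Ff.eq_1 g]
  rw [← integral_const_mul, ← integral_const_mul]
  refine integral_congr_ae (ae_of_all _ fun u => ?_)
  simp only
  have h5 : e ((y - u).1 * z.1 + (y - u).2 * z.2)
      = e (y.1 * z.1 + y.2 * z.2) * e (-(u.1 * z.1 + u.2 * z.2)) := by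
    rw [← e_add]
    congr 1
    simp only [Prod.fst_sub, Prod.snd_sub]
    ring
  rw [h5]
  ring

end Pool.Agent.H19.LS
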