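import Mathlib
import Pool.Agent.H19.LS.PL

/-!
# Module PLB: Plancherel for bounded functions with compact support
-/

set_option autoImplicit false

namespace Pool.Agent.H19.LS

open MeasureTheory Set Pool.Agent.H83.LS
open scoped ENNReal NNReal FourierTransform RealInnerProductSpace ContDiff SchwartzMap

/-- the Fourier transform of a function in `L¹ ∩ L²` -/
theorem fourier_ae (G : V → ℂ) (h1 : Integrable G) (h2 : MemLp G 2) :
    ((𝓕 (h2.toLp G) : Lp ℂ 2 (volume : Measure V)) : V → ℂ) =ᵐ[volume] 𝓕 G := by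
  have hcont : Continuous (𝓕 G) := by
    exact VectorFourier.fourierIntegral_continuous Real.continuous_fourierChar
      (by exact continuous_inner) h1
  apply ae_eq_of_integral_contDiff_smul_eq
  · have := (Lp.memLp (𝓕 (h2.toLp G) : Lp ℂ 2 (volume : Measure V)))
    exact this.locallyIntegrable (by norm_num)
  · exact hcont.locallyIntegrable
  · intro φ hφ1 hφ2
    have hc : HasCompactSupport (fun x => (φ x : ℂ)) := hφ2.comp_left (g := Complex.ofReal) rfl
    have hd : ContDiff ℝ ∞ (fun x => (φ x : ℂ)) := Complex.ofRealCLM.contDiff.comp hφ1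
    set Φ : 𝓢(V, ℂ) := hc.toSchwartzMap hd with hΦ
    have e1 := congrArg (fun T : 𝓢'(V, ℂ) => T Φ) (Lp.fourier_toTemperedDistribution_eq (h2.toLp G))
    simp only [TemperedDistribution.fourier_apply, Lp.toTemperedDistribution_apply] at e1
    have e2 : ∫ x, (𝓕 Φ) x • (h2.toLp G) x = ∫ x, (𝓕 Φ) x • G x := by
      refine integral_congr_ae ?_
      filter_upwards [h2.coeFn_toLp] with x hx
      rw [hx]
    have e3 : ∫ x, (𝓕 Φ) x • G x = ∫ x, Φ x • (𝓕 G) x := by
      have := VectorFourier.integral_fourierIntegral_smul_eq_flip (μ := (volume : Measure V))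
        (ν := (volume : Measure V)) (L := innerₗ V) (f := Φ) (g := G)
        Real.continuous_fourierChar continuous_inner Φ.integrable h1
      rw [flip_innerₗ] at this
      exact this
    have e4 : ∀ F : V → ℂ, ∫ x, φ x • F x = ∫ x, Φ x • F x := by
      intro F
      rfl
    rw [e4, e4, ← e3, ← e2, e1]

/-- Plancherel for functions in `L¹ ∩ L²` -/
theorem plancherel (g : ℝ × ℝ → ℂ) (h1 : Integrable (lift g)) (h2 : MemLp (lift g) 2) :
    ∫⁻ ζ, ‖Ff g ζ‖ₑ ^ 2 = ∫⁻ y, ‖g y‖ₑ ^ 2 := by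
  have hcv : ∀ f : ℝ × ℝ → ℂ, ∫⁻ y, ‖f y‖ₑ ^ 2 = ∫⁻ v : V, ‖lift f v‖ₑ ^ 2 := fun f =>
    ((WithLp.volume_preserving_ofLp (U := ℝ) (V := ℝ)).lintegral_comp_emb
      (MeasurableEquiv.toLp 2 (ℝ × ℝ)).symm.measurableEmbedding (fun y => ‖f y‖ₑ ^ 2)).symm
  have hL : ∀ F : Lp ℂ 2 (volume : Measure V), ∫⁻ v : V, ‖F v‖ₑ ^ 2 = ‖F‖ₑ ^ 2 := by
    intro F
    rw [Lp.enorm_def, eLpNorm_eq_lintegral_rpow_enorm_toReal (by norm_num) (by norm_num)]
    rw [← ENNReal.rpow_natCast, ← ENNReal.rpow_mul]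
    simp
  rw [hcv, hcv, lift_Ff]
  have e1 : ∫⁻ v : V, ‖𝓕 (lift g) v‖ₑ ^ 2
      = ∫⁻ v : V, ‖(𝓕 (h2.toLp (lift g)) : Lp ℂ 2 (volume : Measure V)) v‖ₑ ^ 2 := by
    refine lintegral_congr_ae ?_
    filter_upwards [fourier_ae (lift g) h1 h2] with v hv
    rw [hv]
  have e2 : ∫⁻ v : V, ‖lift g v‖ₑ ^ 2 = ∫⁻ v : V, ‖(h2.toLp (lift g)) v‖ₑ ^ 2 := by
    refine lintegral_congr_ae ?_
    filter_upwards [h2.coeFn_toLp] with v hv
    rw [hv]
  rw [e1, e2, hL, hL]
  have e3 := Lp.norm_fourier_eq (h2.toLp (lift g))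
  rw [← ofReal_norm, ← ofReal_norm, e3]

theorem BC_mem (g : ℝ × ℝ → ℂ) (hg : BC g) : ∃ (A R : ℝ), 0 ≤ A ∧ 0 ≤ R ∧
    (∀ y, ‖g y‖ ≤ A) ∧ ∀ y, R < ‖y‖ → g y = 0 := by
  obtain ⟨-, ⟨A, hA⟩, R, hR⟩ := hg
  refine ⟨A, max R 0, (norm_nonneg _).trans (hA 0), le_max_right _ _, hA, fun y hy => hR y ?_⟩
  exact (le_max_left _ _).trans_lt hy

theorem BC_bdd (g : ℝ × ℝ → ℂ) (hg : BC g) (p : ℝ≥0∞) (w : ℝ × ℝ → ℝ) (hw : Continuous w) :
    MemLp (fun y => ((w y : ℝ) : ℂ) * g y) p := by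
  obtain ⟨A, R, hA0, hR0, hA, hR⟩ := BC_mem g hg
  have hK : IsCompact (Metric.closedBall (0 : ℝ × ℝ) R) := isCompact_closedBall _ _
  obtain ⟨M, hM⟩ := hK.exists_bound_of_continuousOn hw.continuousOn
  have hm : AEStronglyMeasurable (fun y => ((w y : ℝ) : ℂ) * g y)
      (volume.restrict (Metric.closedBall (0 : ℝ × ℝ) R)) :=
    ((Complex.measurable_ofReal.comp hw.measurable).mul hg.1).aestronglyMeasurable
  have h1 : MemLp (fun y => ((w y : ℝ) : ℂ) * g y) p
      (volume.restrict (Metric.closedBall (0 : ℝ × ℝ) R)) := by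
    have : IsFiniteMeasure (volume.restrict (Metric.closedBall (0 : ℝ × ℝ) R)) :=
      ⟨by rw [Measure.restrict_apply_univ]; exact hK.measure_lt_top⟩
    refine MemLp.of_bound hm (M * A) ?_
    filter_upwards [ae_restrict_mem hK.measurableSet] with y hy
    rw [norm_mul, Complex.norm_real]
    exact mul_le_mul (hM y hy) (hA y) (norm_nonneg _) ((norm_nonneg _).trans (hM y hy))
  rw [← memLp_indicator_iff_restrict hK.measurableSet] at h1
  have h2 : (fun y => ((w y : ℝ) : ℂ) * g y) = (Metric.closedBall (0 : ℝ × ℝ) R).indicator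
      fun y => ((w y : ℝ) : ℂ) * g y := ?_
  · rw [h2]
    exact h1
  funext y
  by_cases hy : y ∈ Metric.closedBall (0 : ℝ × ℝ) R
  · rw [indicator_of_mem hy]
  · rw [indicator_of_notMem hy, hR y, mul_zero]
    rw [Metric.mem_closedBall, dist_zero_right, not_le] at hy
    exact hy

/-- module PLB -/
theorem PLB_proof : T_PLB := by
  intro g hg
  have hp : ∀ p : ℝ≥0∞, MemLp g p := by
    intro p
    have := BC_bdd g hg p (fun _ => 1) continuous_const
    simpa using this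
  have hi : Integrable g := (memLp_one_iff_integrable).1 (hp 1)
  have hil : Integrable (lift g) := (integrable_lift g).2 hi
  have h2l : MemLp (lift g) 2 :=
    (hp 2).comp_measurePreserving (WithLp.volume_preserving_ofLp (U := ℝ) (V := ℝ))
  refine ⟨?_, plancherel g hil h2l, ?_⟩
  · have h1 : ContDiff ℝ (⊤ : ℕ∞) (𝓕 (lift g)) := by
      apply Real.contDiff_fourier
      intro n _
      have h3 := BC_bdd g hg 1 (fun y => ‖(WithLp.toLp 2 y : V)‖ ^ n) (by fun_prop)
      have h4 := ((memLp_one_iff_integrable).1 h3).norm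
      have h5 : Integrable (fun v : V => ‖((‖(WithLp.toLp 2 (WithLp.ofLp v) : V)‖ ^ n : ℝ) : ℂ)
          * g (WithLp.ofLp v)‖) :=
        ((WithLp.volume_preserving_ofLp (U := ℝ) (V := ℝ)).integrable_comp_emb
          (MeasurableEquiv.toLp 2 (ℝ × ℝ)).symm.measurableEmbedding).2 h4
      refine h5.congr (ae_of_all _ fun v => ?_)
      simp [lift]
    have h2 : Ff g = fun ζ => 𝓕 (lift g) (WithLp.toLp 2 ζ) := by
      ext ζ
      exact Ff_eq g ζ
    rw [h2]
    exact h1.comp (WithLp.prodContinuousLinearEquiv 2 ℝ ℝ ℝ).symm.contDiff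
  · intro χ hχ y
    exact fub χ g hχ.integrable hi y

end Pool.Agent.H19.LS
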