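import Mathlib
import Pool.Agent.H83.LS.Targets3
import Pool.Agent.H83.LS.Basic
import Pool.Agent.H19.LS.PC2
import Pool.Agent.H19.LS.PLE

/-!
# Module STRONG: strong type at frequency `lam`
-/

set_option autoImplicit false

namespace Pool.Agent.H19.LS

open MeasureTheory Set Pool.Agent.H83.LS FourierTransform
open scoped ENNReal NNReal ContDiff

theorem chi_CB (M : ℕ) : ∃ B : ℝ, 0 ≤ B ∧ CB M B (fun σ => ((chi σ : ℝ) : ℂ)) := by
  have hd : ContDiff ℝ ∞ (fun σ : ℝ => ((chi σ : ℝ) : ℂ)) :=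
    Complex.ofRealCLM.contDiff.comp chi_smooth
  have hsup : ∀ σ : ℝ, ((chi σ : ℝ) : ℂ) ≠ 0 → 1 / 2 ≤ σ ∧ σ ≤ 2 := by
    intro σ h
    apply chi_supp
    intro h0
    apply h
    rw [h0]
    simp
  have hcs : HasCompactSupport (fun σ : ℝ => ((chi σ : ℝ) : ℂ)) := by
    refine HasCompactSupport.of_support_subset_isCompact (isCompact_Icc (a := (1 / 2 : ℝ)) (b := 2)) ?_
    intro σ hσ
    exact hsup σ hσ
  have hb : ∀ k : ℕ, ∃ B : ℝ, ∀ σ, ‖iteratedDeriv k (fun σ : ℝ => ((chi σ : ℝ) : ℂ)) σ‖ ≤ B := by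
    intro k
    have h1 : Continuous (iteratedDeriv k (fun σ : ℝ => ((chi σ : ℝ) : ℂ))) :=
      hd.continuous_iteratedDeriv k (by exact_mod_cast le_top)
    have h2 : HasCompactSupport (iteratedDeriv k (fun σ : ℝ => ((chi σ : ℝ) : ℂ))) := by
      have h3 := hcs.iteratedFDeriv (𝕜 := ℝ) k
      have h4 : iteratedDeriv k (fun σ : ℝ => ((chi σ : ℝ) : ℂ)) =
          fun σ => (iteratedFDeriv ℝ k (fun σ : ℝ => ((chi σ : ℝ) : ℂ)) σ) (fun _ => 1) := by
        funext σ
        rfl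
      rw [h4]
      exact h3.comp_left (g := fun L => L (fun _ => (1 : ℝ))) rfl
    exact h1.bounded_above_of_compact_support h2
  choose B hB using hb
  refine ⟨∑ k ∈ Finset.range (M + 1), |B k|, Finset.sum_nonneg fun _ _ => abs_nonneg _, hd,
    fun σ h => ?_, fun k hk σ => ?_⟩
  · have := hsup σ h
    constructor <;> linarith [this.1, this.2]
  · refine (hB k σ).trans ((le_abs_self _).trans ?_)
    exact Finset.single_le_sum (f := fun k => |B k|) (fun _ _ => abs_nonneg _)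
      (Finset.mem_range.2 (by omega))

set_option linter.unusedSectionVars false

section Basic

variable {d : ℕ} (lam : ℝ) (hl : 0 < lam)

include hl

theorem mT_cont (t : ℝ) : Continuous (mT (d := d) lam t) := by
  unfold mT
  have h1 := chi_smooth.continuous
  exact (continuous_e.comp (by fun_prop)).mul (Complex.continuous_ofReal.comp
    (h1.comp (by fun_prop)))

theorem mT_le (t : ℝ) (ξ : EE d) : ‖mT lam t ξ‖ ≤ 1 := by
  unfold mT
  rw [norm_mul, norm_e, one_mul, Complex.norm_real]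
  exact chi_abs _

theorem mT_supp (t : ℝ) (ξ : EE d) (h : mT lam t ξ ≠ 0) : ‖ξ‖ ≤ 2 * lam := by
  have h1 : chi (‖ξ‖ / lam) ≠ 0 := by
    intro h0
    apply h
    unfold mT
    rw [h0]
    simp
  have h2 := (chi_supp _ h1).2
  rwa [div_le_iff₀ hl] at h2

theorem mT_int (t : ℝ) : Integrable (mT (d := d) lam t) := by
  apply (mT_cont lam hl t).integrable_of_hasCompactSupport
  refine HasCompactSupport.of_support_subset_isCompact
    (isCompact_closedBall (0 : EE d) (2 * lam)) ?_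
  intro ξ hξ
  rw [mem_closedBall_zero_iff]
  exact mT_supp lam hl t ξ hξ

theorem MM_cont (f : EE d → ℂ) (hf : Integrable f) :
    Continuous fun p : ℝ × EE d => MM (mT lam p.1) f p.2 := by
  unfold MM
  have hfc : Continuous (𝓕 f) := fourier_cont f hf
  apply continuous_of_dominated (bound := fun ξ : EE d => ‖mT lam 0 ξ * 𝓕 f ξ‖)
  · intro p
    exact ((continuous_e.comp (by fun_prop)).mul
      ((mT_cont lam hl p.1).mul hfc)).aestronglyMeasurable
  · intro p
    refine Filter.Eventually.of_forall fun ξ => ?_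
    rw [norm_mul, norm_e, one_mul, norm_mul, norm_mul]
    unfold mT
    rw [norm_mul, norm_mul, norm_e, norm_e]
  · have h1 : Integrable fun ξ : EE d => mT lam 0 ξ * 𝓕 f ξ := by
      apply ((mT_cont lam hl 0).mul hfc).integrable_of_hasCompactSupport
      refine HasCompactSupport.of_support_subset_isCompact
        (isCompact_closedBall (0 : EE d) (2 * lam)) ?_
      intro ξ hξ
      rw [mem_closedBall_zero_iff]
      apply mT_supp lam hl 0 ξ
      intro h0
      apply hξ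
      change mT lam 0 ξ * 𝓕 f ξ = 0
      rw [h0, zero_mul]
    exact h1.norm
  · refine Filter.Eventually.of_forall fun ξ => ?_
    unfold mT
    exact (continuous_e.comp (by fun_prop)).mul
      (((continuous_e.comp (by fun_prop)).mul continuous_const).mul continuous_const)

theorem MM_conv (hPLE : T_PLE) (t : ℝ) (f : EE d → ℂ) (hf : Integrable f) (hm : Measurable f)
    (hb : ∃ A : ℝ, ∀ x, ‖f x‖ ≤ A) (x : EE d) :
    MM (mT lam t) f x = ∫ y, MK (mT lam t) (x - y) * f y :=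
  (hPLE d (mT lam t) f (mT_cont lam hl t).measurable (mT_le lam hl t) (mT_int lam hl t) hf hb hm).1 x

theorem MK_le (t : ℝ) (x : EE d) : ‖MK (mT lam t) x‖ ≤ ∫ ξ : EE d, ‖mT lam t ξ‖ := by
  unfold MK
  refine (norm_integral_le_integral_norm _).trans (le_of_eq ?_)
  congr 1
  funext ξ
  rw [norm_mul, norm_e, one_mul]

theorem MK_cont (t : ℝ) : Continuous (MK (mT (d := d) lam t)) := by
  unfold MK
  have h1 := mT_int (d := d) lam hl t
  apply continuous_of_dominated (bound := fun ξ : EE d => ‖mT lam t ξ‖)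
  · intro p
    exact ((continuous_e.comp (by fun_prop)).mul (mT_cont lam hl t)).aestronglyMeasurable
  · intro p
    refine Filter.Eventually.of_forall fun ξ => ?_
    rw [norm_mul, norm_e, one_mul]
  · exact h1.norm
  · refine Filter.Eventually.of_forall fun ξ => ?_
    exact (continuous_e.comp (by fun_prop)).mul continuous_const

theorem MM_sup (hPLE : T_PLE) (t : ℝ) (f : EE d → ℂ) (hf : Integrable f) (hm : Measurable f)
    (A : ℝ) (hb : ∀ x, ‖f x‖ ≤ A) (x : EE d) :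
    ‖MM (mT lam t) f x‖ₑ ≤ (∫⁻ y : EE d, ‖MK (mT lam t) y‖ₑ) * ENNReal.ofReal A := by
  rw [MM_conv lam hl hPLE t f hf hm ⟨A, hb⟩ x]
  refine (enorm_integral_le_lintegral_enorm _).trans ?_
  calc ∫⁻ y : EE d, ‖MK (mT lam t) (x - y) * f y‖ₑ
      ≤ ∫⁻ y : EE d, ‖MK (mT lam t) (x - y)‖ₑ * ENNReal.ofReal A := by
        refine lintegral_mono fun y => ?_
        rw [enorm_mul]
        apply mul_le_mul' le_rfl
        rw [← ofReal_norm]
        exact ENNReal.ofReal_le_ofReal (hb y)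
    _ = _ := by
        rw [lintegral_mul_const' _ _ ENNReal.ofReal_ne_top]
        congr 1
        exact lintegral_sub_left_eq_self (fun y => ‖MK (mT lam t) y‖ₑ) x

end Basic

/-- the measure of space-time -/
noncomputable abbrev stm (d : ℕ) : Measure (ℝ × EE d) :=
  (volume.restrict (Icc (1 : ℝ) 2)).prod volume

theorem st_eq {d : ℕ} (F : ℝ × EE d → ℝ≥0∞) (hF : Measurable F) :
    ∫⁻ t in Icc (1 : ℝ) 2, ∫⁻ x, F (t, x) = ∫⁻ p, F p ∂(stm d) := by
  rw [lintegral_prod _ hF.aemeasurable]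

theorem BCd_int {d : ℕ} (A : ℝ) (f : EE d → ℂ) (h : BCd A f) : Integrable f := by
  obtain ⟨hm, hA, R, hR⟩ := h
  have h1 : IntegrableOn f (Metric.closedBall (0 : EE d) R) := by
    have hfin : volume (Metric.closedBall (0 : EE d) R) < ⊤ :=
      (isCompact_closedBall _ _).measure_lt_top
    refine Measure.integrableOn_of_bounded (M := A) hfin.ne hm.aestronglyMeasurable ?_
    exact Filter.Eventually.of_forall fun x => hA x
  refine (integrableOn_iff_integrable_of_support_subset ?_).1 h1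
  intro x hx
  rw [mem_closedBall_zero_iff]
  by_contra hc
  rw [not_le] at hc
  exact hx (hR x hc)

/-- the exponent -/
noncomputable def Ex (n : ℕ) (q : ℝ) : ℝ := max 0 ((n : ℝ) * (q / 2 - 1) - 1)

/-- restricted type estimate for all exponents -/
theorem restricted (hMAIN : T_MAIN) (hRADL : T_RADL) (hPLE : T_PLE) (n : ℕ) (q η : ℝ)
    (hn : 2 ≤ n) (hq : 2 < q) (hη : 0 < η) : ∃ C : ℝ, 0 ≤ C ∧ ∀ (lam A : ℝ)
    (f : EE (n + 1) → ℂ), 1 ≤ lam → Axial f → BCd A f →
    ∫⁻ p, ‖MM (mT lam p.1) f p.2‖ₑ ^ q ∂(stm (n + 1)) ≤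
      ENNReal.ofReal (C * (lam ^ (Ex n q + η) * A ^ (q - 2))) * ∫⁻ x, ‖f x‖ₑ ^ 2 := by
  have hn0 : (0 : ℝ) < n := by
    have : 0 < n := by omega
    exact_mod_cast this
  have hmeas : ∀ (r lam : ℝ) (f : EE (n + 1) → ℂ), 1 ≤ lam → Integrable f →
      Measurable fun p : ℝ × EE (n + 1) => ‖MM (mT lam p.1) f p.2‖ₑ ^ r := fun r lam f hl hf =>
    (MM_cont lam (by linarith) f hf).measurable.enorm.pow_const r
  rcases le_or_gt q (2 + 2 / (n : ℝ)) with h | h
  · obtain ⟨C, hC⟩ := hMAIN n q η hn hq h hη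
    refine ⟨C, C.2, fun lam A f hl hax hf => ?_⟩
    have hA0 : 0 ≤ A := (norm_nonneg _).trans (hf.2.1 0)
    rw [← st_eq _ (hmeas q lam f hl (BCd_int A f hf))]
    refine (hC lam A f hl hax hf).trans ?_
    apply mul_le_mul' _ le_rfl
    rw [← ENNReal.ofReal_coe_nnreal, ← ENNReal.ofReal_mul (NNReal.coe_nonneg C)]
    apply ENNReal.ofReal_le_ofReal
    have h1 : lam ^ η ≤ lam ^ (Ex n q + η) := by
      apply Real.rpow_le_rpow_of_exponent_le hl
      have : 0 ≤ Ex n q := le_max_left _ _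
      linarith
    have h2 : (0 : ℝ) ≤ C := C.2
    have h3 : 0 ≤ A ^ (q - 2) := Real.rpow_nonneg hA0 _
    exact mul_le_mul_of_nonneg_left (mul_le_mul_of_nonneg_right h1 h3) h2
  · set r : ℝ := 2 + 2 / (n : ℝ) with hr
    have hr2 : 2 < r := by
      have : 0 < 2 / (n : ℝ) := by positivity
      linarith
    obtain ⟨C, hC⟩ := hMAIN n r η hn hr2 le_rfl hη
    obtain ⟨M, C1, hC1⟩ := hRADL (n + 1) (by omega)
    obtain ⟨B, hB0, hB⟩ := chi_CB M
    refine ⟨(|C1 * B| * 3 ^ ((n : ℝ) / 2)) ^ (q - r) * C, by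
      have : (0 : ℝ) ≤ C := C.2
      positivity, fun lam A f hl hax hf => ?_⟩
    have hA0 : 0 ≤ A := (norm_nonneg _).trans (hf.2.1 0)
    have hl0 : 0 < lam := by linarith
    have hfi := BCd_int A f hf
    -- the sup bound
    have hsup : ∀ t ∈ Icc (1 : ℝ) 2, ∀ x, ‖MM (mT lam t) f x‖ₑ ≤
        ENNReal.ofReal (|C1 * B| * 3 ^ ((n : ℝ) / 2) * lam ^ ((n : ℝ) / 2) * A) := by
      intro t ht x
      refine (MM_sup lam hl0 hPLE t f hfi hf.1 A hf.2.1 x).trans ?_
      rw [ENNReal.ofReal_mul (by positivity)]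
      apply mul_le_mul' _ le_rfl
      have h1 := (hC1 (fun σ => ((chi σ : ℝ) : ℂ)) B lam t hB hl0 (by linarith [ht.1])).1
      refine h1.trans (ENNReal.ofReal_le_ofReal ?_)
      have h2 : (1 + lam * t) ^ ((((n + 1 : ℕ) : ℝ) - 1) / 2) ≤ 3 ^ ((n : ℝ) / 2) *
          lam ^ ((n : ℝ) / 2) := by
        rw [← Real.mul_rpow (by norm_num) hl0.le]
        have h3 : (((n + 1 : ℕ) : ℝ) - 1) / 2 = (n : ℝ) / 2 := by
          push_cast
          ring
        rw [h3]
        apply Real.rpow_le_rpow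
        · have := ht.1
          positivity
        · nlinarith [ht.2]
        · positivity
      calc C1 * B * (1 + lam * t) ^ ((((n + 1 : ℕ) : ℝ) - 1) / 2)
          ≤ |C1 * B| * (1 + lam * t) ^ ((((n + 1 : ℕ) : ℝ) - 1) / 2) := by
            apply mul_le_mul_of_nonneg_right (le_abs_self _)
            apply Real.rpow_nonneg
            have := ht.1
            positivity
        _ ≤ |C1 * B| * (3 ^ ((n : ℝ) / 2) * lam ^ ((n : ℝ) / 2)) :=
            mul_le_mul_of_nonneg_left h2 (abs_nonneg _)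
        _ = _ := by ring
    set S : ℝ := |C1 * B| * 3 ^ ((n : ℝ) / 2) * lam ^ ((n : ℝ) / 2) * A with hS
    have hS0 : 0 ≤ S := by positivity
    have hqr : 0 ≤ q - r := by linarith
    have hpt : ∀ᵐ p ∂(stm (n + 1)), ‖MM (mT lam p.1) f p.2‖ₑ ^ q ≤
        ENNReal.ofReal (S ^ (q - r)) * ‖MM (mT lam p.1) f p.2‖ₑ ^ r := by
      have h1 : ∀ᵐ p ∂(stm (n + 1)), p.1 ∈ Icc (1 : ℝ) 2 := by
        have := (Measure.quasiMeasurePreserving_fst (μ := volume.restrict (Icc (1 : ℝ) 2))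
          (ν := (volume : Measure (EE (n + 1))))).ae (ae_restrict_mem measurableSet_Icc)
        exact this
      filter_upwards [h1] with p hp
      have h2 : ‖MM (mT lam p.1) f p.2‖ₑ ^ q = ‖MM (mT lam p.1) f p.2‖ₑ ^ (q - r) *
          ‖MM (mT lam p.1) f p.2‖ₑ ^ r := by
        rw [← ENNReal.rpow_add_of_nonneg _ _ hqr (by linarith)]
        congr 1
        ring
      rw [h2, ← ENNReal.ofReal_rpow_of_nonneg hS0 hqr]
      apply mul_le_mul' _ le_rfl
      exact ENNReal.rpow_le_rpow (hsup p.1 hp p.2) hqr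
    calc ∫⁻ p, ‖MM (mT lam p.1) f p.2‖ₑ ^ q ∂(stm (n + 1))
        ≤ ∫⁻ p, ENNReal.ofReal (S ^ (q - r)) * ‖MM (mT lam p.1) f p.2‖ₑ ^ r ∂(stm (n + 1)) :=
          lintegral_mono_ae hpt
      _ = ENNReal.ofReal (S ^ (q - r)) * ∫⁻ p, ‖MM (mT lam p.1) f p.2‖ₑ ^ r ∂(stm (n + 1)) :=
          lintegral_const_mul' _ _ ENNReal.ofReal_ne_top
      _ ≤ ENNReal.ofReal (S ^ (q - r)) * (C * ENNReal.ofReal (lam ^ η * A ^ (r - 2)) *
          ∫⁻ x, ‖f x‖ₑ ^ 2) := by
          apply mul_le_mul' le_rfl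
          rw [← st_eq _ (hmeas r lam f hl hfi)]
          exact hC lam A f hl hax hf
      _ = ENNReal.ofReal (S ^ (q - r) * (C * (lam ^ η * A ^ (r - 2)))) * ∫⁻ x, ‖f x‖ₑ ^ 2 := by
          have e0 : ENNReal.ofReal (S ^ (q - r) * (C * (lam ^ η * A ^ (r - 2)))) =
              ENNReal.ofReal (S ^ (q - r)) * (C * ENNReal.ofReal (lam ^ η * A ^ (r - 2))) := by
            rw [ENNReal.ofReal_mul (Real.rpow_nonneg hS0 _),
              ENNReal.ofReal_mul (NNReal.coe_nonneg C), ENNReal.ofReal_coe_nnreal]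
          rw [e0, ← mul_assoc]
      _ ≤ _ := by
          apply mul_le_mul' _ le_rfl
          apply ENNReal.ofReal_le_ofReal
          have e1 : S ^ (q - r) = (|C1 * B| * 3 ^ ((n : ℝ) / 2)) ^ (q - r) *
              (lam ^ ((n : ℝ) / 2)) ^ (q - r) * A ^ (q - r) := by
            rw [hS, Real.mul_rpow (by positivity) hA0, Real.mul_rpow (by positivity) (by positivity)]
          have e2 : (lam ^ ((n : ℝ) / 2)) ^ (q - r) = lam ^ ((n : ℝ) * (q / 2 - 1) - 1) := by
            rw [← Real.rpow_mul hl0.le]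
            congr 1
            rw [hr]
            field_simp
            ring
          have e3 : A ^ (q - r) * A ^ (r - 2) = A ^ (q - 2) := by
            rw [← Real.rpow_add_of_nonneg hA0 hqr (by linarith)]
            congr 1
            ring
          have e4 : lam ^ ((n : ℝ) * (q / 2 - 1) - 1) * lam ^ η ≤ lam ^ (Ex n q + η) := by
            rw [← Real.rpow_add hl0]
            apply Real.rpow_le_rpow_of_exponent_le hl
            have : (n : ℝ) * (q / 2 - 1) - 1 ≤ Ex n q := le_max_right _ _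
            linarith
          have hCn : (0 : ℝ) ≤ C := C.2
          calc S ^ (q - r) * (C * (lam ^ η * A ^ (r - 2)))
              = (|C1 * B| * 3 ^ ((n : ℝ) / 2)) ^ (q - r) * C *
                (lam ^ ((n : ℝ) * (q / 2 - 1) - 1) * lam ^ η) * (A ^ (q - r) * A ^ (r - 2)) := by
                rw [e1, e2]
                ring
            _ ≤ (|C1 * B| * 3 ^ ((n : ℝ) / 2)) ^ (q - r) * C * lam ^ (Ex n q + η) *
                A ^ (q - 2) := by
                rw [e3]
                gcongr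
            _ = _ := by ring

/-- the level sets -/
def lev {d : ℕ} (f : EE d → ℂ) (l : ℤ) : Set (EE d) :=
  {x | (2 : ℝ) ^ (l : ℝ) ≤ ‖f x‖ ∧ ‖f x‖ < (2 : ℝ) ^ ((l : ℝ) + 1)}

theorem lev_meas {d : ℕ} (f : EE d → ℂ) (hf : Measurable f) (l : ℤ) : MeasurableSet (lev f l) :=
  (measurableSet_le measurable_const hf.norm).inter (measurableSet_lt hf.norm measurable_const)

/-- the pieces -/
noncomputable def pc {d : ℕ} (f : EE d → ℂ) (l : ℤ) : EE d → ℂ := (lev f l).indicator f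

theorem lev_unique {d : ℕ} (f : EE d → ℂ) (l l' : ℤ) (x : EE d) (h : x ∈ lev f l)
    (h' : x ∈ lev f l') : l = l' := by
  have key : ∀ a b : ℤ, x ∈ lev f a → x ∈ lev f b → b ≤ a := by
    intro a b ha hb
    have h1 : (2 : ℝ) ^ (b : ℝ) < (2 : ℝ) ^ ((a : ℝ) + 1) := hb.1.trans_lt ha.2
    have h2 := (Real.rpow_lt_rpow_left_iff (by norm_num : (1 : ℝ) < 2)).1 h1
    have h3 : b < a + 1 := by exact_mod_cast h2
    omega
  exact le_antisymm (key l' l h' h) (key l l' h h')

theorem lev_exists {d : ℕ} (f : EE d → ℂ) (x : EE d) (h : f x ≠ 0) : ∃ l : ℤ, x ∈ lev f l := by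
  obtain ⟨k, hk1, hk2⟩ := exists_mem_Ico_zpow (norm_pos_iff.2 h) (by norm_num : (1 : ℝ) < 2)
  refine ⟨k, ?_, ?_⟩
  · rw [Real.rpow_intCast]
    exact hk1
  · have : (k : ℝ) + 1 = ((k + 1 : ℤ) : ℝ) := by push_cast; ring
    rw [this, Real.rpow_intCast]
    exact hk2

theorem pc_sum {d : ℕ} (f : EE d → ℂ) (x : EE d) {β : Type} [AddCommMonoid β] [TopologicalSpace β]
    [T2Space β] (G : ℂ → β) (hG : G 0 = 0) : ∑' l : ℤ, G (pc f l x) = G (f x) := by
  by_cases h : f x = 0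
  · have h1 : ∀ l : ℤ, pc f l x = 0 := by
      intro l
      unfold pc
      by_cases hx : x ∈ lev f l
      · rw [indicator_of_mem hx, h]
      · rw [indicator_of_notMem hx]
    simp [h1, hG, h]
  · obtain ⟨l, hl⟩ := lev_exists f x h
    rw [tsum_eq_single l]
    · unfold pc
      rw [indicator_of_mem hl]
    · intro l' hne
      have : x ∉ lev f l' := fun hx => hne (lev_unique f l' l x hx hl)
      unfold pc
      rw [indicator_of_notMem this, hG]

theorem pc_BCd {d : ℕ} (A : ℝ) (f : EE d → ℂ) (h : BCd A f) (l : ℤ) :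
    BCd ((2 : ℝ) ^ ((l : ℝ) + 1)) (pc f l) := by
  obtain ⟨hm, -, R, hR⟩ := h
  refine ⟨hm.indicator (lev_meas f hm l), fun x => ?_, R, fun x hx => ?_⟩
  · unfold pc
    by_cases h : x ∈ lev f l
    · rw [indicator_of_mem h]
      exact h.2.le
    · rw [indicator_of_notMem h, norm_zero]
      positivity
  · unfold pc
    by_cases h : x ∈ lev f l
    · rw [indicator_of_mem h, hR x hx]
    · rw [indicator_of_notMem h]

theorem pc_axial {n : ℕ} (f : EE (n + 1) → ℂ) (h : Axial f) (l : ℤ) : Axial (pc f l) := by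
  intro x y h1 h2
  have h3 := h x y h1 h2
  have h4 : x ∈ lev f l ↔ y ∈ lev f l := by
    unfold lev
    simp only [mem_ofPred_eq]
    rw [h3]
  unfold pc
  by_cases hx : x ∈ lev f l
  · rw [indicator_of_mem hx, indicator_of_mem (h4.1 hx), h3]
  · rw [indicator_of_notMem hx, indicator_of_notMem fun hy => hx (h4.2 hy)]

theorem pc_l2 {d : ℕ} (f : EE d → ℂ) (hf : Measurable f) (l : ℤ) :
    ∫⁻ x, ‖pc f l x‖ₑ ^ 2 ≤ ENNReal.ofReal (((2 : ℝ) ^ ((l : ℝ) + 1)) ^ (2 : ℝ)) *
      volume (lev f l) := by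
  have h1 : ∀ x, ‖pc f l x‖ₑ ^ 2 ≤ (lev f l).indicator
      (fun _ => ENNReal.ofReal (((2 : ℝ) ^ ((l : ℝ) + 1)) ^ (2 : ℝ))) x := by
    intro x
    unfold pc
    by_cases h : x ∈ lev f l
    · rw [indicator_of_mem h, indicator_of_mem h, ← ofReal_norm,
        ← ENNReal.ofReal_pow (norm_nonneg _)]
      apply ENNReal.ofReal_le_ofReal
      rw [← Real.rpow_natCast]
      apply Real.rpow_le_rpow (norm_nonneg _) h.2.le (by norm_num)
    · rw [indicator_of_notMem h]
      simp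
  refine (lintegral_mono h1).trans (le_of_eq ?_)
  rw [lintegral_indicator_const (lev_meas f hf l)]

theorem lev_sum {d : ℕ} (f : EE d → ℂ) (hf : Measurable f) (p : ℝ) (hp : 0 ≤ p) :
    ∑' l : ℤ, ENNReal.ofReal ((2 : ℝ) ^ ((l : ℝ) * p)) * volume (lev f l) ≤ ∫⁻ x, ‖f x‖ₑ ^ p := by
  calc ∑' l : ℤ, ENNReal.ofReal ((2 : ℝ) ^ ((l : ℝ) * p)) * volume (lev f l)
      ≤ ∑' l : ℤ, ∫⁻ x in lev f l, ‖f x‖ₑ ^ p := by
        apply ENNReal.tsum_le_tsum
        intro l
        rw [← setLIntegral_const]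
        apply setLIntegral_mono' (lev_meas f hf l)
        intro x hx
        rw [← ofReal_norm, ENNReal.ofReal_rpow_of_nonneg (norm_nonneg _) hp, Real.rpow_mul
          (by norm_num)]
        apply ENNReal.ofReal_le_ofReal
        exact Real.rpow_le_rpow (by positivity) hx.1 hp
    _ = ∫⁻ x in ⋃ l, lev f l, ‖f x‖ₑ ^ p := by
        rw [lintegral_iUnion (lev_meas f hf)]
        intro l l' hne
        rw [Function.onFun, Set.disjoint_left]
        intro x hx hx'
        exact hne (lev_unique f l l' x hx hx')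
    _ ≤ _ := setLIntegral_le_lintegral _ _

theorem MM_tsum {d : ℕ} (lam : ℝ) (hl : 0 < lam) (hPLE : T_PLE) (t A : ℝ) (f : EE d → ℂ)
    (hf : BCd A f) (x : EE d) : ‖MM (mT lam t) f x‖ₑ ≤ ∑' l : ℤ, ‖MM (mT lam t) (pc f l) x‖ₑ := by
  have hfi := BCd_int A f hf
  have hpi : ∀ l, Integrable (pc f l) := fun l => BCd_int _ _ (pc_BCd A f hf l)
  have e1 : MM (mT lam t) f x = ∑' l : ℤ, MM (mT lam t) (pc f l) x := by
    rw [MM_conv lam hl hPLE t f hfi hf.1 ⟨A, hf.2.1⟩ x]
    have e2 : ∀ l, MM (mT lam t) (pc f l) x = ∫ y, MK (mT lam t) (x - y) * pc f l y := fun l =>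
      MM_conv lam hl hPLE t (pc f l) (hpi l) (pc_BCd A f hf l).1 ⟨_, (pc_BCd A f hf l).2.1⟩ x
    simp_rw [e2]
    rw [← integral_tsum]
    · refine integral_congr_ae (Filter.Eventually.of_forall fun y => ?_)
      exact (pc_sum f y (fun z => MK (mT lam t) (x - y) * z) (mul_zero _)).symm
    · intro l
      exact (((MK_cont lam hl t).comp (continuous_const.sub continuous_id)).aestronglyMeasurable).mul
        (pc_BCd A f hf l).1.aestronglyMeasurable
    · rw [← lintegral_tsum]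
      · have e3 : ∀ y, ∑' l : ℤ, ‖MK (mT lam t) (x - y) * pc f l y‖ₑ
            = ‖MK (mT lam t) (x - y) * f y‖ₑ := fun y =>
          pc_sum f y (fun z => ‖MK (mT lam t) (x - y) * z‖ₑ) (by simp)
        simp_rw [e3]
        have e4 : Integrable fun y => MK (mT lam t) (x - y) * f y := by
          apply hfi.bdd_mul (c := ∫ ξ : EE d, ‖mT lam t ξ‖)
          · exact ((MK_cont lam hl t).comp
              (continuous_const.sub continuous_id)).aestronglyMeasurable
          · exact Filter.Eventually.of_forall fun y => MK_le lam hl t _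
        exact e4.2.ne
      · intro l
        exact ((((MK_cont lam hl t).comp
          (continuous_const.sub continuous_id)).aestronglyMeasurable).mul
          (pc_BCd A f hf l).1.aestronglyMeasurable).enorm
  rw [e1]
  exact enorm_tsum_le_tsum_enorm

/-- strong type for bounded functions with compact support -/
theorem strong_BCd (hMAIN : T_MAIN) (hMARC : T_MARC) (hRADL : T_RADL) (hPLE : T_PLE) (n : ℕ)
    (p η : ℝ) (hn : 2 ≤ n) (hp : 2 + 2 / (n : ℝ) ≤ p) (hη : 0 < η) : ∃ C : ℝ≥0, ∀ (lam A : ℝ)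
    (f : EE (n + 1) → ℂ), 1 ≤ lam → Axial f → BCd A f →
    ∫⁻ q, ‖MM (mT lam q.1) f q.2‖ₑ ^ p ∂(stm (n + 1)) ≤
      C * ENNReal.ofReal (lam ^ ((n : ℝ) * (p / 2 - 1) - 1 + η)) * ∫⁻ x, ‖f x‖ₑ ^ p := by
  have hn0 : (0 : ℝ) < n := by
    have : 0 < n := by omega
    exact_mod_cast this
  have h2n : 0 < 2 / (n : ℝ) := by positivity
  have hp2 : 2 < p := by linarith
  have hE : 0 ≤ (n : ℝ) * (p / 2 - 1) - 1 := by
    have h1 : 1 / (n : ℝ) ≤ p / 2 - 1 := by
      have : 2 / (n : ℝ) = 2 * (1 / (n : ℝ)) := by ring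
      rw [this] at hp
      linarith
    have h2 : (n : ℝ) * (1 / (n : ℝ)) = 1 := by field_simp
    nlinarith
  set q₁ := (2 + p) / 2 with hq₁
  set q₂ := p + η / n with hq₂
  have hηn : 0 < η / n := by positivity
  obtain ⟨C₁, hC₁0, hC₁⟩ := restricted hMAIN hRADL hPLE n q₁ (η / 2) hn (by linarith) (by positivity)
  obtain ⟨C₂, hC₂0, hC₂⟩ := restricted hMAIN hRADL hPLE n q₂ (η / 2) hn (by linarith) (by positivity)
  obtain ⟨C, hC⟩ := hMARC q₁ p q₂ (by linarith) (by linarith) (by linarith)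
  set C' : ℝ := C₁ * 2 ^ q₁ + C₂ * 2 ^ q₂ with hC'
  have hC'0 : 0 ≤ C' := by positivity
  refine ⟨C * C'.toNNReal, fun lam A f hl hax hf => ?_⟩
  have hl0 : 0 < lam := by linarith
  have hEx1 : Ex n q₁ + η / 2 ≤ (n : ℝ) * (p / 2 - 1) - 1 + η := by
    have : Ex n q₁ ≤ (n : ℝ) * (p / 2 - 1) - 1 := by
      apply max_le hE
      have : q₁ / 2 - 1 ≤ p / 2 - 1 := by linarith
      nlinarith
    linarith
  have hEx2 : Ex n q₂ + η / 2 ≤ (n : ℝ) * (p / 2 - 1) - 1 + η := by
    have : Ex n q₂ ≤ (n : ℝ) * (p / 2 - 1) - 1 + η / 2 := by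
      apply max_le (by linarith)
      have h1 : (n : ℝ) * (q₂ / 2 - 1) = (n : ℝ) * (p / 2 - 1) + η / 2 := by
        rw [hq₂]
        field_simp
        ring
      linarith
    linarith
  set B : ℝ≥0∞ := ENNReal.ofReal (C' * lam ^ ((n : ℝ) * (p / 2 - 1) - 1 + η)) with hB
  have hgen : ∀ (q Cq : ℝ), 2 < q → 0 ≤ Cq → Cq * 2 ^ q ≤ C' →
      Ex n q + η / 2 ≤ (n : ℝ) * (p / 2 - 1) - 1 + η → (∀ (lam A : ℝ)
      (f : EE (n + 1) → ℂ), 1 ≤ lam → Axial f → BCd A f →
      ∫⁻ p, ‖MM (mT lam p.1) f p.2‖ₑ ^ q ∂(stm (n + 1)) ≤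
      ENNReal.ofReal (Cq * (lam ^ (Ex n q + η / 2) * A ^ (q - 2))) * ∫⁻ x, ‖f x‖ₑ ^ 2) →
      ∀ l : ℤ, ∫⁻ y, ‖MM (mT lam y.1) (pc f l) y.2‖ₑ ^ q ∂(stm (n + 1)) ≤
        B * ENNReal.ofReal ((2 : ℝ) ^ ((l : ℝ) * q)) * volume (lev f l) := by
    intro q Cq hq hCq hCC hEx hR l
    refine (hR lam _ (pc f l) hl (pc_axial f hax l) (pc_BCd A f hf l)).trans ?_
    refine (mul_le_mul' le_rfl (pc_l2 f hf.1 l)).trans ?_
    rw [← mul_assoc]
    apply mul_le_mul' _ le_rfl
    have hpos : (0 : ℝ) < (2 : ℝ) ^ ((l : ℝ) + 1) := by positivity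
    rw [← ENNReal.ofReal_mul (by positivity), hB, ← ENNReal.ofReal_mul (by positivity)]
    apply ENNReal.ofReal_le_ofReal
    have e1 : ((2 : ℝ) ^ ((l : ℝ) + 1)) ^ (q - 2) * ((2 : ℝ) ^ ((l : ℝ) + 1)) ^ (2 : ℝ)
        = (2 : ℝ) ^ q * (2 : ℝ) ^ ((l : ℝ) * q) := by
      rw [← Real.rpow_add hpos, ← Real.rpow_mul (by norm_num), ← Real.rpow_add (by norm_num)]
      congr 1
      ring
    have e2 : lam ^ (Ex n q + η / 2) ≤ lam ^ ((n : ℝ) * (p / 2 - 1) - 1 + η) :=
      Real.rpow_le_rpow_of_exponent_le hl hEx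
    calc Cq * (lam ^ (Ex n q + η / 2) * ((2 : ℝ) ^ ((l : ℝ) + 1)) ^ (q - 2)) *
          ((2 : ℝ) ^ ((l : ℝ) + 1)) ^ (2 : ℝ)
        = (Cq * 2 ^ q) * lam ^ (Ex n q + η / 2) * (2 : ℝ) ^ ((l : ℝ) * q) := by
          rw [mul_assoc Cq, mul_assoc (lam ^ _), e1]
          ring
      _ ≤ _ := by gcongr
  have hgm : ∀ l : ℤ, Measurable fun y : ℝ × EE (n + 1) => ‖MM (mT lam y.1) (pc f l) y.2‖ₑ :=
    fun l => (MM_cont lam hl0 (pc f l) (BCd_int _ _ (pc_BCd A f hf l))).measurable.enorm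
  have h1 := hC (ℝ × EE (n + 1)) (stm (n + 1)) (fun l y => ‖MM (mT lam y.1) (pc f l) y.2‖ₑ)
    (fun l => volume (lev f l)) B hgm
    (hgen q₁ C₁ (by linarith) hC₁0 (by
      have : 0 ≤ C₂ * 2 ^ q₂ := by positivity
      linarith) hEx1 hC₁)
    (hgen q₂ C₂ (by linarith) hC₂0 (by
      have : 0 ≤ C₁ * 2 ^ q₁ := by positivity
      linarith) hEx2 hC₂)
  calc ∫⁻ q, ‖MM (mT lam q.1) f q.2‖ₑ ^ p ∂(stm (n + 1))
      ≤ ∫⁻ q, (∑' l : ℤ, ‖MM (mT lam q.1) (pc f l) q.2‖ₑ) ^ p ∂(stm (n + 1)) := by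
        refine lintegral_mono fun q => ?_
        exact ENNReal.rpow_le_rpow (MM_tsum lam hl0 hPLE q.1 A f hf q.2) (by linarith)
    _ ≤ _ := h1
    _ ≤ C * B * ∫⁻ x, ‖f x‖ₑ ^ p := mul_le_mul' le_rfl (lev_sum f hf.1 p (by linarith))
    _ = _ := by
        rw [hB, ENNReal.ofReal_mul hC'0]
        push_cast
        rw [← mul_assoc]
        rfl

/-- module STRONG -/
theorem STRONG_proof (hMAIN : T_MAIN) (hMARC : T_MARC) (hRADL : T_RADL) (hPLE : T_PLE) :
    T_STRONG := by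
  intro n p η hn hp hη
  obtain ⟨C, hC⟩ := strong_BCd hMAIN hMARC hRADL hPLE n p η hn hp hη
  refine ⟨C, fun lam f hl hax hm hfi ⟨A, hA⟩ => ?_⟩
  have hl0 : 0 < lam := by linarith
  have hn0 : (0 : ℝ) < n := by
    have : 0 < n := by omega
    exact_mod_cast this
  have hp0 : 0 ≤ p := by
    have h2n : 0 < 2 / (n : ℝ) := by positivity
    linarith
  set fk : ℕ → EE (n + 1) → ℂ := fun k => (Metric.closedBall (0 : EE (n + 1)) k).indicator f
    with hfk
  have hmk : ∀ k, Measurable (fk k) := fun k => hm.indicator measurableSet_closedBall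
  have hle : ∀ k x, ‖fk k x‖ ≤ ‖f x‖ := fun k x => norm_indicator_le_norm_self f x
  have hBC : ∀ k, BCd A (fk k) := by
    intro k
    refine ⟨hmk k, fun x => (hle k x).trans (hA x), k, fun x hx => ?_⟩
    rw [hfk]
    simp only
    rw [indicator_of_notMem]
    rw [mem_closedBall_zero_iff, not_le]
    exact hx
  have hAx : ∀ k, Axial (fk k) := by
    intro k x y h1 h2
    have h3 := hax x y h1 h2
    have h4 : x ∈ Metric.closedBall (0 : EE (n + 1)) k ↔ y ∈ Metric.closedBall (0 : EE (n + 1)) k := by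
      rw [mem_closedBall_zero_iff, mem_closedBall_zero_iff, h2]
    rw [hfk]
    simp only
    by_cases hx : x ∈ Metric.closedBall (0 : EE (n + 1)) k
    · rw [indicator_of_mem hx, indicator_of_mem (h4.1 hx), h3]
    · rw [indicator_of_notMem hx, indicator_of_notMem fun hy => hx (h4.2 hy)]
  have hmeas : ∀ g : EE (n + 1) → ℂ, Integrable g →
      Measurable fun q : ℝ × EE (n + 1) => ‖MM (mT lam q.1) g q.2‖ₑ ^ p := fun g hg =>
    (MM_cont lam hl0 g hg).measurable.enorm.pow_const p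
  have hconv : ∀ q : ℝ × EE (n + 1), Filter.Tendsto
      (fun k => ‖MM (mT lam q.1) (fk k) q.2‖ₑ ^ p) Filter.atTop
      (nhds (‖MM (mT lam q.1) f q.2‖ₑ ^ p)) := by
    intro q
    apply Filter.Tendsto.ennrpow_const
    apply Filter.Tendsto.enorm
    rw [MM_conv lam hl0 hPLE q.1 f hfi hm ⟨A, hA⟩ q.2]
    have e2 : ∀ k, MM (mT lam q.1) (fk k) q.2 = ∫ y, MK (mT lam q.1) (q.2 - y) * fk k y := fun k =>
      MM_conv lam hl0 hPLE q.1 (fk k) (BCd_int A _ (hBC k)) (hmk k) ⟨A, (hBC k).2.1⟩ q.2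
    simp_rw [e2]
    have hKm : AEStronglyMeasurable (fun y : EE (n + 1) => MK (mT lam q.1) (q.2 - y)) :=
      ((MK_cont lam hl0 q.1).comp (continuous_const.sub continuous_id)).aestronglyMeasurable
    apply tendsto_integral_of_dominated_convergence
      (fun y => ‖MK (mT lam q.1) (q.2 - y) * f y‖)
    · intro k
      exact hKm.mul (hmk k).aestronglyMeasurable
    · exact (hfi.bdd_mul (c := ∫ ξ : EE (n + 1), ‖mT lam q.1 ξ‖) hKm
        (Filter.Eventually.of_forall fun y => MK_le lam hl0 q.1 _)).norm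
    · intro k
      refine Filter.Eventually.of_forall fun y => ?_
      rw [norm_mul, norm_mul]
      exact mul_le_mul_of_nonneg_left (hle k y) (norm_nonneg _)
    · refine Filter.Eventually.of_forall fun y => ?_
      apply Filter.Tendsto.const_mul
      obtain ⟨k0, hk0⟩ := exists_nat_ge ‖y‖
      refine tendsto_const_nhds.congr' ?_
      filter_upwards [Filter.eventually_ge_atTop k0] with k hk
      rw [hfk]
      simp only
      rw [indicator_of_mem]
      rw [mem_closedBall_zero_iff]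
      exact hk0.trans (by exact_mod_cast hk)
  rw [st_eq (fun q => ‖MM (mT lam q.1) f q.2‖ₑ ^ p) (hmeas f hfi)]
  calc ∫⁻ q, ‖MM (mT lam q.1) f q.2‖ₑ ^ p ∂(stm (n + 1))
      = ∫⁻ q, Filter.liminf (fun k => ‖MM (mT lam q.1) (fk k) q.2‖ₑ ^ p) Filter.atTop
          ∂(stm (n + 1)) := by
        refine lintegral_congr fun q => ?_
        exact (hconv q).liminf_eq.symm
    _ ≤ Filter.liminf (fun k => ∫⁻ q, ‖MM (mT lam q.1) (fk k) q.2‖ₑ ^ p ∂(stm (n + 1)))
          Filter.atTop :=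
        lintegral_liminf_le fun k => hmeas (fk k) (BCd_int A _ (hBC k))
    _ ≤ _ := by
        apply Filter.liminf_le_of_frequently_le'
        apply Filter.Frequently.of_forall
        intro k
        refine (hC lam A (fk k) hl (hAx k) (hBC k)).trans ?_
        apply mul_le_mul' le_rfl
        refine lintegral_mono fun x => ?_
        apply ENNReal.rpow_le_rpow _ hp0
        rw [← ofReal_norm, ← ofReal_norm]
        exact ENNReal.ofReal_le_ofReal (hle k x)

end Pool.Agent.H19.LS
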