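import Mathlib
import Pool.Agent.H83.LS.Targets1

/-!
# Module TL: trilinear restriction for narrow sectors
-/

set_option autoImplicit false

namespace Pool.Agent.H19.LS

open MeasureTheory Set Pool.Agent.H83.LS
open scoped ENNReal NNReal

theorem exists_delta (C η : ℝ) (hη : 0 < η) :
    ∃ δ : ℝ, 0 < δ ∧ δ ≤ 1 / 1000 ∧ Real.log C ≤ η / 4 * Real.log (1 / δ) := by
  refine ⟨min (1 / 1000) (Real.exp (-(4 * Real.log C / η))), ?_, min_le_left _ _, ?_⟩
  · exact lt_min (by norm_num) (Real.exp_pos _)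
  · set δ := min (1 / 1000) (Real.exp (-(4 * Real.log C / η))) with hδ
    have hδ0 : 0 < δ := lt_min (by norm_num) (Real.exp_pos _)
    have h1 : Real.log δ ≤ -(4 * Real.log C / η) := by
      rw [← Real.log_exp (-(4 * Real.log C / η))]
      exact Real.log_le_log hδ0 (min_le_right _ _)
    rw [one_div, Real.log_inv]
    have h2 : η / 4 * (4 * Real.log C / η) = Real.log C := by field_simp
    nlinarith

theorem pow_bound (C η : ℝ) (hC : 1 ≤ C) (hη : 0 < η) : ∃ D : ℝ, 0 < D ∧ ∀ (n : ℕ) (r : ℝ),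
    1 ≤ r → (1 ≤ n → (2 : ℝ) ^ (n - 1) ≤ Real.log r) → C ^ (3 * n) ≤ D * r ^ (η / 2) := by
  obtain ⟨k, hk⟩ := pow_unbounded_of_one_lt (C ^ 3) (by norm_num : (1 : ℝ) < 2)
  have hc : 0 < η / 2 := by positivity
  refine ⟨1 + 2 ^ k * (Nat.factorial k / (η / 2) ^ k), by positivity, fun n r hr h => ?_⟩
  have hr0 : 0 < r := by linarith
  have h1 : 1 ≤ r ^ (η / 2) := Real.one_le_rpow hr hc.le
  rcases Nat.eq_zero_or_pos n with hn | hn
  · subst hn
    have h2 : (0 : ℝ) ≤ 2 ^ k * (Nat.factorial k / (η / 2) ^ k) := by positivity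
    rw [mul_zero, pow_zero]
    nlinarith
  · have hy := h hn
    set y : ℝ := 2 ^ (n - 1) with hyd
    have hy0 : 0 < y := by positivity
    have h3 : (η / 2 * y) ^ k / (Nat.factorial k) ≤ r ^ (η / 2) := by
      refine (Real.pow_div_factorial_le_exp _ (by positivity) k).trans ?_
      rw [Real.rpow_def_of_pos hr0, mul_comm (Real.log r)]
      apply Real.exp_le_exp.2
      gcongr
    have h4 : y ^ k ≤ Nat.factorial k / (η / 2) ^ k * r ^ (η / 2) := by
      rw [div_mul_eq_mul_div, le_div_iff₀ (by positivity), ← mul_pow, mul_comm y]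
      rw [div_le_iff₀ (by positivity)] at h3
      linarith
    have h5 : C ^ (3 * n) ≤ 2 ^ k * y ^ k := by
      calc C ^ (3 * n) = (C ^ 3) ^ n := by rw [pow_mul]
        _ ≤ (2 ^ k) ^ n := by
            have : 0 ≤ C ^ 3 := by positivity
            exact pow_le_pow_left₀ this hk.le n
        _ = 2 ^ k * y ^ k := by
            rw [hyd, ← pow_mul, ← pow_mul, ← pow_add]
            congr 1
            have : n = (n - 1) + 1 := by omega
            conv_lhs => rw [this]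
            ring
    calc C ^ (3 * n) ≤ 2 ^ k * y ^ k := h5
      _ ≤ 2 ^ k * (Nat.factorial k / (η / 2) ^ k * r ^ (η / 2)) := by gcongr
      _ ≤ _ := by nlinarith

/-- module TL -/
theorem TL_proof (hIND : T_IND) (hBASE : T_BASE) : T_TL := by
  intro κ η hκ hη
  obtain ⟨C, hC1, hC⟩ := hIND κ hκ
  obtain ⟨δ, hδ0, hδ1, hδ⟩ := exists_delta C η hη
  have hL0 : 0 < Real.log (1 / δ) := by
    apply Real.log_pos
    rw [lt_div_iff₀ hδ0]
    linarith
  have hr0 : (3 : ℝ) ≤ (64 / δ) ^ 2 := by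
    have h1 : (64 : ℝ) ≤ 64 / δ := by
      rw [le_div_iff₀ hδ0]
      nlinarith
    nlinarith
  obtain ⟨C0, hC0⟩ := hBASE ((64 / δ) ^ 2) (by linarith)
  obtain ⟨D, hD0, hD⟩ := pow_bound C η hC1 hη
  refine ⟨δ, hδ0, hδ1, C0 * D.toNNReal, ?_⟩
  intro a ha s r s₀ y₀ b hs hsep hr hb
  have claim : ∀ (n : ℕ) (r s₀ : ℝ) (y₀ : ℝ × ℝ) (b : Fin 3 → ℝ × ℝ → ℂ), 1 ≤ r →
      Real.log r ≤ 2 ^ n → (∀ i, TS {ζ | ζ ∈ QQ ∧ |ζ.2 - s i * ζ.1| ≤ δ * ζ.1} (b i)) →
      tri a r s₀ y₀ b ≤ ENNReal.ofReal (C0 * C ^ (3 * n) * r ^ (η / 2)) *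
        ∏ i, (En r y₀ (U a s₀ (b i))) ^ (1 / 2 : ℝ) := by
    have hbase : ∀ (n : ℕ) (r s₀ : ℝ) (y₀ : ℝ × ℝ) (b : Fin 3 → ℝ × ℝ → ℂ), 1 ≤ r →
        r ≤ (64 / δ) ^ 2 → (∀ i, TS {ζ | ζ ∈ QQ ∧ |ζ.2 - s i * ζ.1| ≤ δ * ζ.1} (b i)) →
        tri a r s₀ y₀ b ≤ ENNReal.ofReal (C0 * C ^ (3 * n) * r ^ (η / 2)) *
          ∏ i, (En r y₀ (U a s₀ (b i))) ^ (1 / 2 : ℝ) := by
      intro n r s₀ y₀ b hr hr' hb
      refine (hC0 a ha r s₀ y₀ b hr hr' fun i => ⟨(hb i).1, fun ζ h => ((hb i).2 ζ h).1⟩).trans ?_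
      have h1 : (C0 : ℝ≥0∞) ≤ ENNReal.ofReal (C0 * C ^ (3 * n) * r ^ (η / 2)) := by
        rw [← ENNReal.ofReal_coe_nnreal]
        apply ENNReal.ofReal_le_ofReal
        have h2 : 1 ≤ C ^ (3 * n) := one_le_pow₀ hC1
        have h3 : 1 ≤ r ^ (η / 2) := Real.one_le_rpow hr (by positivity)
        have h4 : (0 : ℝ) ≤ C0 := C0.2
        calc (C0 : ℝ) = C0 * 1 * 1 := by ring
          _ ≤ C0 * C ^ (3 * n) * r ^ (η / 2) := by gcongr
      gcongr
    intro n
    induction n with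
    | zero =>
      intro r s₀ y₀ b hr hlr hb
      refine hbase 0 r s₀ y₀ b hr ?_ hb
      have h1 : r ≤ Real.exp 1 := by
        rw [← Real.exp_log (by linarith : 0 < r)]
        apply Real.exp_le_exp.2
        simpa using hlr
      have := Real.exp_one_lt_d9
      linarith
    | succ n ih =>
      intro r s₀ y₀ b hr hlr hb
      rcases le_or_gt r ((64 / δ) ^ 2) with h | h
      · exact hbase (n + 1) r s₀ y₀ b hr h hb
      · have hr0' : 0 < r := by linarith
        have hlr2 : Real.log (Real.sqrt r) = Real.log r / 2 := Real.log_sqrt hr0'.le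
        have h1 : 1 ≤ Real.sqrt r := by
          rw [Real.one_le_sqrt]
          exact hr
        have hT : 0 ≤ (C0 : ℝ) * C ^ (3 * n) * (Real.sqrt r) ^ (η / 2) := by
          have : (0 : ℝ) ≤ C0 := C0.2
          positivity
        have h2 := hC δ hδ0 hδ1 a ha s r ((C0 : ℝ) * C ^ (3 * n) * (Real.sqrt r) ^ (η / 2)) hs hsep
          h.le hT (fun s₀ y₀ b hb => ih (Real.sqrt r) s₀ y₀ b h1 (by
            rw [hlr2]
            rw [pow_succ] at hlr
            linarith) hb) s₀ y₀ b hb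
        refine h2.trans ?_
        have h3 : C ^ (3 + Real.log r / Real.log (1 / δ)) *
            ((C0 : ℝ) * C ^ (3 * n) * (Real.sqrt r) ^ (η / 2))
            ≤ C0 * C ^ (3 * (n + 1)) * r ^ (η / 2) := by
          have hC0' : 0 < C := by linarith
          have h4 : C ^ (3 + Real.log r / Real.log (1 / δ)) ≤ C ^ 3 * r ^ (η / 4) := by
            rw [Real.rpow_add hC0']
            have h5 : C ^ (Real.log r / Real.log (1 / δ)) ≤ r ^ (η / 4) := by
              rw [Real.rpow_def_of_pos hC0', Real.rpow_def_of_pos hr0']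
              apply Real.exp_le_exp.2
              have h6 : 0 ≤ Real.log r := Real.log_nonneg hr
              rw [← mul_div_assoc, div_le_iff₀ hL0]
              nlinarith
            have h7 : C ^ (3 : ℝ) = C ^ 3 := by
              rw [← Real.rpow_natCast]
              norm_num
            rw [h7]
            gcongr
          have h8 : (Real.sqrt r) ^ (η / 2) = r ^ (η / 4) := by
            rw [Real.sqrt_eq_rpow, ← Real.rpow_mul hr0'.le]
            congr 1
            ring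
          have h9 : r ^ (η / 2) = r ^ (η / 4) * r ^ (η / 4) := by
            rw [← Real.rpow_add hr0']
            congr 1
            ring
          rw [h8, h9, show 3 * (n + 1) = 3 * n + 3 by ring, pow_add]
          have h10 : (0 : ℝ) ≤ C0 := C0.2
          have h11 : 0 ≤ r ^ (η / 4) := by positivity
          calc C ^ (3 + Real.log r / Real.log (1 / δ)) * ((C0 : ℝ) * C ^ (3 * n) * r ^ (η / 4))
              ≤ (C ^ 3 * r ^ (η / 4)) * ((C0 : ℝ) * C ^ (3 * n) * r ^ (η / 4)) := by gcongr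
            _ = _ := by ring
        have h12 := ENNReal.ofReal_le_ofReal h3
        gcongr
  -- choose n
  have hex : ∃ n : ℕ, Real.log r ≤ 2 ^ n := by
    obtain ⟨n, hn⟩ := pow_unbounded_of_one_lt (Real.log r) (by norm_num : (1 : ℝ) < 2)
    exact ⟨n, hn.le⟩
  classical
  set n := Nat.find hex with hn
  have hn1 := Nat.find_spec hex
  have hn2 : 1 ≤ n → (2 : ℝ) ^ (n - 1) ≤ Real.log r := by
    intro h1
    have := Nat.find_min hex (m := n - 1) (by omega)
    exact (not_le.1 this).le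
  refine (claim n r s₀ y₀ b hr hn1 hb).trans ?_
  have h3 : (C0 : ℝ) * C ^ (3 * n) * r ^ (η / 2) ≤ C0 * D * r ^ η := by
    have h4 := hD n r hr hn2
    have h5 : r ^ η = r ^ (η / 2) * r ^ (η / 2) := by
      rw [← Real.rpow_add (by linarith)]
      congr 1
      ring
    have h6 : (0 : ℝ) ≤ C0 := C0.2
    have h7 : 0 ≤ r ^ (η / 2) := by positivity
    rw [h5]
    calc (C0 : ℝ) * C ^ (3 * n) * r ^ (η / 2) ≤ C0 * (D * r ^ (η / 2)) * r ^ (η / 2) := by gcongr
      _ = _ := by ring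
  have h8 : ENNReal.ofReal (C0 * C ^ (3 * n) * r ^ (η / 2))
      ≤ ((C0 * D.toNNReal : ℝ≥0) : ℝ≥0∞) * ENNReal.ofReal (r ^ η) := by
    refine (ENNReal.ofReal_le_ofReal h3).trans (le_of_eq ?_)
    rw [ENNReal.ofReal_mul (by positivity), ENNReal.ofReal_mul (NNReal.coe_nonneg C0),
      ENNReal.ofReal_coe_nnreal]
    rfl
  gcongr

end Pool.Agent.H19.LS
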