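import Mathlib
import Pool.Agent.H83.LS.Targets2
import Pool.Agent.H19.LS.PLB

/-!
# Module TRACE: the energy on slabs
-/

set_option autoImplicit false

namespace Pool.Agent.H19.LS

open MeasureTheory Set Pool.Agent.H83.LS
open scoped ENNReal NNReal ContDiff

/-- length -/
noncomputable def nr (ξ : ℝ × ℝ) : ℝ := Real.sqrt (ξ.1 ^ 2 + ξ.2 ^ 2)

/-- the half plane -/
def HP : Set (ℝ × ℝ) := {ξ | 0 < ξ.1}

/-- the change of variables -/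
noncomputable def cvar (ξ : ℝ × ℝ) : ℝ × ℝ := (ξ.2, nr ξ)

/-- its derivative -/
noncomputable def cder (ξ : ℝ × ℝ) : ℝ × ℝ →L[ℝ] ℝ × ℝ :=
  (Matrix.toLin (.finTwoProd ℝ) (.finTwoProd ℝ)
    !![0, 1; ξ.1 / nr ξ, ξ.2 / nr ξ]).toContinuousLinearMap

theorem nr_pos (ξ : ℝ × ℝ) (h : ξ ∈ HP) : 0 < nr ξ := by
  have h1 : 0 < ξ.1 := h
  apply Real.sqrt_pos.2
  positivity

theorem nr_sq (ξ : ℝ × ℝ) : nr ξ ^ 2 = ξ.1 ^ 2 + ξ.2 ^ 2 := Real.sq_sqrt (by positivity)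

theorem cvar_deriv (ξ : ℝ × ℝ) (h : ξ ∈ HP) : HasFDerivAt cvar (cder ξ) ξ := by
  unfold cder
  rw [Matrix.toLin_finTwoProd_toContinuousLinearMap]
  have h0 := nr_pos ξ h
  have h1 : HasFDerivAt (fun x : ℝ × ℝ => x.1 ^ 2 + x.2 ^ 2)
      ((2 * ξ.1) • ContinuousLinearMap.fst ℝ ℝ ℝ + (2 * ξ.2) • ContinuousLinearMap.snd ℝ ℝ ℝ) ξ := by
    have := (hasFDerivAt_fst (𝕜 := ℝ) (p := ξ)).pow 2 |>.add
      ((hasFDerivAt_snd (𝕜 := ℝ) (p := ξ)).pow 2)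
    convert! this using 1
    ext <;> simp
  have h2 : HasFDerivAt nr ((1 / (2 * nr ξ)) • ((2 * ξ.1) • ContinuousLinearMap.fst ℝ ℝ ℝ
      + (2 * ξ.2) • ContinuousLinearMap.snd ℝ ℝ ℝ)) ξ := by
    refine h1.sqrt ?_
    have : 0 < ξ.1 := h
    positivity
  convert! HasFDerivAt.prodMk (𝕜 := ℝ) (hasFDerivAt_snd (𝕜 := ℝ) (p := ξ)) h2 using 2
  · simp
  · ext <;> simp <;> field_simp

theorem cder_det (ξ : ℝ × ℝ) (h : ξ ∈ HP) : |(cder ξ).det| = ξ.1 / nr ξ := by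
  have h0 := nr_pos ξ h
  have h1 : 0 < ξ.1 := h
  unfold cder
  simp only [LinearMap.det_toContinuousLinearMap, LinearMap.det_toLin, Matrix.det_fin_two_of]
  rw [zero_mul, one_mul, zero_sub, abs_neg, abs_of_pos (by positivity)]

theorem HP_meas : MeasurableSet HP := measurableSet_lt measurable_const measurable_fst

theorem cvar_inj : InjOn cvar HP := by
  intro x hx y hy h
  have h1 : x.2 = y.2 := congrArg Prod.fst h
  have h2 : nr x = nr y := congrArg Prod.snd h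
  have h3 : x.1 ^ 2 + x.2 ^ 2 = y.1 ^ 2 + y.2 ^ 2 := by rw [← nr_sq, ← nr_sq, h2]
  rw [h1] at h3
  have h4 : x.1 ^ 2 = y.1 ^ 2 := by linarith
  have h5 : x.1 = y.1 := by
    have hx1 : (0 : ℝ) < x.1 := hx
    have hy1 : (0 : ℝ) < y.1 := hy
    exact (pow_left_inj₀ hx1.le hy1.le two_ne_zero).1 h4
  exact Prod.ext h5 h1

theorem cvar_image : cvar '' HP = {y | |y.1| < y.2} := by
  ext y
  constructor
  · rintro ⟨x, hx, rfl⟩
    have hx1 : (0 : ℝ) < x.1 := hx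
    change |x.2| < nr x
    rw [← abs_of_pos (nr_pos x hx)]
    apply sq_lt_sq.1
    rw [nr_sq]
    nlinarith
  · intro hy
    have hy' : |y.1| < y.2 := hy
    have h0 : 0 < y.2 := (abs_nonneg _).trans_lt hy'
    have h1 : y.1 ^ 2 < y.2 ^ 2 := by
      apply sq_lt_sq.2
      rwa [abs_of_pos h0]
    refine ⟨(Real.sqrt (y.2 ^ 2 - y.1 ^ 2), y.1), Real.sqrt_pos.2 (by linarith), ?_⟩
    unfold cvar nr
    simp only
    rw [Real.sq_sqrt (by linarith), sub_add_cancel, Real.sqrt_sq h0.le]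

/-- the function after the change of variables -/
noncomputable def BB (c : ℝ) (b : ℝ × ℝ → ℂ) (y : ℝ × ℝ) : ℂ :=
  {y : ℝ × ℝ | |y.1| < y.2}.indicator (fun y => e (c * Real.sqrt (y.2 ^ 2 - y.1 ^ 2)) *
    b (Real.sqrt (y.2 ^ 2 - y.1 ^ 2), y.1) * ((y.2 / Real.sqrt (y.2 ^ 2 - y.1 ^ 2) : ℝ) : ℂ)) y

theorem BB_cvar (c : ℝ) (b : ℝ × ℝ → ℂ) (ξ : ℝ × ℝ) (h : ξ ∈ HP) :
    BB c b (cvar ξ) = e (c * ξ.1) * b ξ * ((nr ξ / ξ.1 : ℝ) : ℂ) := by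
  have h1 : 0 < ξ.1 := h
  have h2 : cvar ξ ∈ {y : ℝ × ℝ | |y.1| < y.2} := by
    rw [← cvar_image]
    exact mem_image_of_mem _ h
  have h3 : Real.sqrt ((cvar ξ).2 ^ 2 - (cvar ξ).1 ^ 2) = ξ.1 := by
    change Real.sqrt (nr ξ ^ 2 - ξ.2 ^ 2) = ξ.1
    rw [nr_sq, add_sub_cancel_right, Real.sqrt_sq h1.le]
  unfold BB
  rw [indicator_of_mem h2, h3]
  rfl

theorem meas_B : MeasurableSet {y : ℝ × ℝ | |y.1| < y.2} :=
  measurableSet_lt (measurable_fst.abs) measurable_snd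

theorem W_eq (t c x : ℝ) (b : ℝ × ℝ → ℂ) (hb : ∀ ξ, b ξ ≠ 0 → ξ ∈ HP) :
    W t b (c, x) = Fi (BB c b) (x, t) := by
  have h1 : Fi (BB c b) (x, t) = ∫ y in cvar '' HP, e (x * y.1 + t * y.2) * BB c b y := by
    rw [cvar_image, setIntegral_eq_integral_of_forall_compl_eq_zero]
    · rfl
    · intro y hy
      unfold BB
      rw [indicator_of_notMem hy, mul_zero]
  rw [h1, integral_image_eq_integral_abs_det_fderiv_smul volume HP_meas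
    (fun ξ hξ => (cvar_deriv ξ hξ).hasFDerivWithinAt) cvar_inj]
  have h2 : W t b (c, x) = ∫ ξ in HP, e (c * ξ.1 + x * ξ.2 + t * nr ξ) * b ξ := by
    rw [setIntegral_eq_integral_of_forall_compl_eq_zero]
    · rfl
    · intro ξ hξ
      have : b ξ = 0 := by
        by_contra hne
        exact hξ (hb ξ hne)
      rw [this, mul_zero]
  rw [h2]
  refine setIntegral_congr_fun HP_meas fun ξ hξ => ?_
  have h3 := nr_pos ξ hξ
  have h4 : 0 < ξ.1 := hξ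
  rw [cder_det ξ hξ, BB_cvar c b ξ hξ]
  have h5 : e (c * ξ.1 + x * ξ.2 + t * nr ξ) = e (x * (cvar ξ).1 + t * (cvar ξ).2) * e (c * ξ.1) := by
    rw [← e_add]
    congr 1
    change _ = x * ξ.2 + t * nr ξ + c * ξ.1
    ring
  rw [h5, Complex.real_smul]
  have h6 : ((ξ.1 / nr ξ : ℝ) : ℂ) * ((nr ξ / ξ.1 : ℝ) : ℂ) = 1 := by
    rw [← Complex.ofReal_mul]
    norm_cast
    field_simp
  calc e (x * (cvar ξ).1 + t * (cvar ξ).2) * e (c * ξ.1) * b ξ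
      = (((ξ.1 / nr ξ : ℝ) : ℂ) * ((nr ξ / ξ.1 : ℝ) : ℂ)) *
        (e (x * (cvar ξ).1 + t * (cvar ξ).2) * e (c * ξ.1) * b ξ) := by rw [h6, one_mul]
    _ = _ := by ring

section Tr

variable (κ : ℝ) (b : ℝ × ℝ → ℂ) (hκ : 0 < κ)
  (hb : TS {ξ | 1 / 16 ≤ ξ.1 ^ 2 + ξ.2 ^ 2 ∧ ξ.1 ^ 2 + ξ.2 ^ 2 ≤ 16 ∧
    κ * Real.sqrt (ξ.1 ^ 2 + ξ.2 ^ 2) ≤ ξ.1} b)

include hκ hb

theorem supp_HP (ξ : ℝ × ℝ) (h : b ξ ≠ 0) : ξ ∈ HP := by
  obtain ⟨h1, -, h3⟩ := hb.2 ξ h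
  have h4 : 0 < Real.sqrt (ξ.1 ^ 2 + ξ.2 ^ 2) := Real.sqrt_pos.2 (by linarith)
  change 0 < ξ.1
  exact lt_of_lt_of_le (mul_pos hκ h4) h3

theorem BB_BC (c : ℝ) : BC (BB c b) := by
  obtain ⟨M, hM⟩ := hb.1.1.continuous.bounded_above_of_compact_support hb.1.2
  have hM0 : 0 ≤ M := (norm_nonneg _).trans (hM 0)
  have hbm : Measurable b := hb.1.1.continuous.measurable
  have key : ∀ y, BB c b y ≠ 0 → ∃ ξ ∈ HP, y = cvar ξ ∧ b ξ ≠ 0 := by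
    intro y hy
    have h1 : y ∈ {y : ℝ × ℝ | |y.1| < y.2} := by
      by_contra hc
      apply hy
      unfold BB
      rw [indicator_of_notMem hc]
    rw [← cvar_image] at h1
    obtain ⟨ξ, hξ, rfl⟩ := h1
    refine ⟨ξ, hξ, rfl, fun h0 => hy ?_⟩
    rw [BB_cvar c b ξ hξ, h0]
    ring
  refine ⟨?_, ⟨M / κ, fun y => ?_⟩, ⟨4, fun y hy => ?_⟩⟩
  · unfold BB
    apply Measurable.indicator _ meas_B
    have h1 : Measurable fun y : ℝ × ℝ => Real.sqrt (y.2 ^ 2 - y.1 ^ 2) := by fun_prop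
    refine ((measurable_e.comp (h1.const_mul c)).mul (hbm.comp (h1.prodMk measurable_fst))).mul ?_
    exact Complex.measurable_ofReal.comp (measurable_snd.div h1)
  · by_cases hy : BB c b y = 0
    · rw [hy, norm_zero]
      positivity
    · obtain ⟨ξ, hξ, rfl, hne⟩ := key y hy
      have h3 := nr_pos ξ hξ
      have h4 : 0 < ξ.1 := hξ
      rw [BB_cvar c b ξ hξ, norm_mul, norm_mul, norm_e, one_mul, Complex.norm_real,
        Real.norm_of_nonneg (by positivity)]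
      have h5 : κ * nr ξ ≤ ξ.1 := (hb.2 ξ hne).2.2
      have h6 : nr ξ / ξ.1 ≤ 1 / κ := by
        rw [div_le_div_iff₀ h4 hκ]
        linarith
      calc ‖b ξ‖ * (nr ξ / ξ.1) ≤ M * (1 / κ) :=
            mul_le_mul (hM ξ) h6 (by positivity) hM0
        _ = M / κ := by ring
  · by_contra hne
    obtain ⟨ξ, hξ, rfl, hn⟩ := key y hne
    have h3 := nr_pos ξ hξ
    have h5 := (hb.2 ξ hn).2.1
    have h6 : nr ξ ≤ 4 := by
      have h7 : nr ξ ^ 2 ≤ 4 ^ 2 := by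
        rw [nr_sq]
        linarith
      exact (pow_le_pow_iff_left₀ h3.le (by norm_num) two_ne_zero).1 h7
    have h7 : |ξ.2| ≤ nr ξ := by
      have : cvar ξ ∈ {y : ℝ × ℝ | |y.1| < y.2} := by
        rw [← cvar_image]
        exact mem_image_of_mem _ hξ
      exact le_of_lt this
    have h8 : ‖cvar ξ‖ ≤ 4 := by
      rw [Prod.norm_def]
      change max ‖ξ.2‖ ‖nr ξ‖ ≤ 4
      rw [Real.norm_eq_abs, Real.norm_eq_abs, abs_of_pos h3]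
      exact max_le (h7.trans h6) h6
    linarith

theorem BB_l2 (c : ℝ) : ∫⁻ y, ‖BB c b y‖ₑ ^ 2 ≤ ENNReal.ofReal (1 / κ) * l2 b := by
  have h1 : ∫⁻ y, ‖BB c b y‖ₑ ^ 2 = ∫⁻ y in cvar '' HP, ‖BB c b y‖ₑ ^ 2 := by
    rw [cvar_image, ← lintegral_indicator meas_B]
    refine lintegral_congr fun y => ?_
    by_cases hy : y ∈ {y : ℝ × ℝ | |y.1| < y.2}
    · rw [indicator_of_mem hy]
    · rw [indicator_of_notMem hy]
      unfold BB
      rw [indicator_of_notMem hy]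
      simp
  rw [h1, lintegral_image_eq_lintegral_abs_det_fderiv_mul volume HP_meas
    (fun ξ hξ => (cvar_deriv ξ hξ).hasFDerivWithinAt) cvar_inj]
  unfold l2
  rw [← lintegral_const_mul' _ _ ENNReal.ofReal_ne_top]
  refine (setLIntegral_mono' HP_meas fun ξ hξ => ?_).trans (setLIntegral_le_lintegral HP _)
  have h3 := nr_pos ξ hξ
  have h4 : 0 < ξ.1 := hξ
  rw [cder_det ξ hξ, BB_cvar c b ξ hξ, enorm_mul, enorm_mul, enorm_e, one_mul]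
  have h5 : ‖((nr ξ / ξ.1 : ℝ) : ℂ)‖ₑ = ENNReal.ofReal (nr ξ / ξ.1) := by
    rw [← ofReal_norm, Complex.norm_real, Real.norm_of_nonneg (by positivity)]
  rw [h5, mul_pow, ← ENNReal.ofReal_pow (by positivity)]
  by_cases hne : b ξ = 0
  · simp [hne]
  · have h6 : κ * nr ξ ≤ ξ.1 := (hb.2 ξ hne).2.2
    have h7 : ξ.1 / nr ξ * (nr ξ / ξ.1) ^ 2 ≤ 1 / κ := by
      have h8 : ξ.1 / nr ξ * (nr ξ / ξ.1) ^ 2 = nr ξ / ξ.1 := by
        field_simp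
      rw [h8, div_le_div_iff₀ h4 hκ]
      linarith
    calc ENNReal.ofReal (ξ.1 / nr ξ) * (‖b ξ‖ₑ ^ 2 * ENNReal.ofReal ((nr ξ / ξ.1) ^ 2))
        = ENNReal.ofReal (ξ.1 / nr ξ * (nr ξ / ξ.1) ^ 2) * ‖b ξ‖ₑ ^ 2 := by
          rw [ENNReal.ofReal_mul (by positivity)]
          ring
      _ ≤ _ := mul_le_mul_left (ENNReal.ofReal_le_ofReal h7) _

theorem tr_fix (c : ℝ) : ∫⁻ t : ℝ, ∫⁻ x : ℝ, ‖W t b (c, x)‖ₑ ^ 2 ≤ ENNReal.ofReal (1 / κ) * l2 b := by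
  have hB := BB_BC κ b hκ hb c
  have h1 : ∀ t x : ℝ, W t b (c, x) = Ff (BB c b) (-x, -t) := by
    intro t x
    rw [W_eq t c x b (supp_HP κ b hκ hb)]
    unfold Fi Ff
    refine integral_congr_ae (ae_of_all _ fun y => ?_)
    simp only
    congr 2
    ring
  simp_rw [h1]
  have hcont : Continuous (Ff (BB c b)) := (PLB_proof _ hB).1.continuous
  have hm : Measurable fun z : ℝ × ℝ => ‖Ff (BB c b) (-z.1, -z.2)‖ₑ ^ 2 := by
    have : Continuous fun z : ℝ × ℝ => Ff (BB c b) (-z.1, -z.2) := hcont.comp (by fun_prop)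
    exact this.measurable.enorm.pow_const 2
  have h2 : ∫⁻ t : ℝ, ∫⁻ x : ℝ, ‖Ff (BB c b) (-x, -t)‖ₑ ^ 2
      = ∫⁻ z : ℝ × ℝ, ‖Ff (BB c b) (-z.1, -z.2)‖ₑ ^ 2 := by
    rw [Measure.volume_eq_prod, lintegral_prod_symm _ hm.aemeasurable]
  rw [h2]
  have h3 : ∫⁻ z : ℝ × ℝ, ‖Ff (BB c b) (-z.1, -z.2)‖ₑ ^ 2 = ∫⁻ z : ℝ × ℝ, ‖Ff (BB c b) z‖ₑ ^ 2 := by
    have := lintegral_neg_eq_self (μ := (volume : Measure (ℝ × ℝ))) fun z => ‖Ff (BB c b) z‖ₑ ^ 2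
    exact this
  rw [h3, (PLB_proof _ hB).2.1]
  exact BB_l2 κ b hκ hb c

end Tr

theorem W_cont (b : ℝ × ℝ → ℂ) (hb : TC b) : Continuous fun p : ℝ × (ℝ × ℝ) => W p.1 b p.2 := by
  unfold W
  apply continuous_of_dominated (bound := fun ξ => ‖b ξ‖)
  · intro p
    exact ((continuous_e.comp (by fun_prop)).mul hb.1.continuous).aestronglyMeasurable
  · intro p
    refine ae_of_all _ fun ξ => ?_
    rw [norm_mul, norm_e, one_mul]
  · exact hb.integrable.norm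
  · refine ae_of_all _ fun ξ => ?_
    exact (continuous_e.comp (by fun_prop)).mul continuous_const

/-- module TRACE -/
theorem TRACE_proof : T_TRACE := by
  refine ⟨1, fun κ w b hκ hκ1 hw hb => ?_⟩
  have hWc := W_cont b hb.1
  have hWm : Measurable fun p : ℝ × (ℝ × ℝ) => ‖W p.1 b p.2‖ₑ ^ 2 :=
    hWc.measurable.enorm.pow_const 2
  have hWt : ∀ t : ℝ, Continuous fun x : ℝ × ℝ => W t b x := fun t =>
    hWc.comp (g := fun p : ℝ × (ℝ × ℝ) => W p.1 b p.2) (f := fun x : ℝ × ℝ => (t, x)) (by fun_prop)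
  have h1 : ∀ t : ℝ, ∫⁻ x : ℝ × ℝ, w x.1 * ‖W t b x‖ₑ ^ 2
      = ∫⁻ c : ℝ, w c * ∫⁻ x : ℝ, ‖W t b (c, x)‖ₑ ^ 2 := by
    intro t
    have hm0 : Measurable fun x : ℝ × ℝ => ‖W t b x‖ₑ ^ 2 := (hWt t).measurable.enorm.pow_const 2
    have hm1 : Measurable fun x : ℝ × ℝ => w x.1 * ‖W t b x‖ₑ ^ 2 :=
      (hw.comp measurable_fst).mul hm0
    rw [Measure.volume_eq_prod, lintegral_prod _ hm1.aemeasurable]
    refine lintegral_congr fun c => ?_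
    have hm2 : Measurable fun x : ℝ => ‖W t b (c, x)‖ₑ ^ 2 :=
      hm0.comp (g := fun x : ℝ × ℝ => ‖W t b x‖ₑ ^ 2) (f := fun x : ℝ => (c, x)) (by fun_prop)
    exact lintegral_const_mul (μ := volume) (w c) hm2
  simp_rw [h1]
  have hm3 : Measurable fun p : ℝ × ℝ => ∫⁻ x : ℝ, ‖W p.1 b (p.2, x)‖ₑ ^ 2 := by
    apply Measurable.lintegral_prod_right' (f := fun q : (ℝ × ℝ) × ℝ => ‖W q.1.1 b (q.1.2, q.2)‖ₑ ^ 2)
    exact hWm.comp (g := fun p : ℝ × (ℝ × ℝ) => ‖W p.1 b p.2‖ₑ ^ 2)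
      (f := fun q : (ℝ × ℝ) × ℝ => (q.1.1, (q.1.2, q.2))) (by fun_prop)
  have hm4 : Measurable fun p : ℝ × ℝ => w p.2 * ∫⁻ x : ℝ, ‖W p.1 b (p.2, x)‖ₑ ^ 2 :=
    (hw.comp measurable_snd).mul hm3
  rw [lintegral_lintegral_swap hm4.aemeasurable]
  have h2 : ∀ c : ℝ, ∫⁻ t : ℝ, w c * ∫⁻ x : ℝ, ‖W t b (c, x)‖ₑ ^ 2
      ≤ (ENNReal.ofReal (1 / κ) * l2 b) * w c := by
    intro c
    have hm5 : Measurable fun t : ℝ => ∫⁻ x : ℝ, ‖W t b (c, x)‖ₑ ^ 2 :=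
      hm3.comp (g := fun p : ℝ × ℝ => ∫⁻ x : ℝ, ‖W p.1 b (p.2, x)‖ₑ ^ 2)
        (f := fun t : ℝ => (t, c)) (by fun_prop)
    rw [lintegral_const_mul _ hm5, mul_comm]
    have h3 := tr_fix κ b hκ hb c
    gcongr
  refine (lintegral_mono h2).trans (le_of_eq ?_)
  rw [lintegral_const_mul _ hw]
  push_cast
  ring

end Pool.Agent.H19.LS
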